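import Mathlib

set_option autoImplicit false

namespace Pool.Agent.Work.MP_d2f6cf_al



/-- Substituting into words. -/
theorem lift_lift {A : Type} [Group A] (x y : A) (u1 u2 w : FreeGroup (Fin 2)) :
    FreeGroup.lift ![x, y] (FreeGroup.lift ![u1, u2] w) =
      FreeGroup.lift ![FreeGroup.lift ![x, y] u1, FreeGroup.lift ![x, y] u2] w := by
  have h : (FreeGroup.lift ![x, y]).comp (FreeGroup.lift ![u1, u2]) =
      FreeGroup.lift ![FreeGroup.lift ![x, y] u1, FreeGroup.lift ![x, y] u2] := by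
    apply FreeGroup.ext_hom
    intro a
    fin_cases a <;> simp
  exact DFunLike.congr_fun h w

theorem map_lift2 {A B : Type} [Group A] [Group B] (φ : A →* B) (x y : A)
    (w : FreeGroup (Fin 2)) :
    φ (FreeGroup.lift ![x, y] w) = FreeGroup.lift ![φ x, φ y] w := by
  have h : φ.comp (FreeGroup.lift ![x, y]) = FreeGroup.lift ![φ x, φ y] := by
    apply FreeGroup.ext_hom
    intro a
    fin_cases a <;> simp
  exact DFunLike.congr_fun h w

/-- Words evaluated at commuting elements. -/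
theorem lift_of_commute {A : Type} [Group A] (x y : A) (h : Commute x y)
    (w : FreeGroup (Fin 2)) :
    (∃ i j : ℤ, FreeGroup.lift ![x, 1] w = x ^ i ∧ FreeGroup.lift ![1, y] w = y ^ j ∧
      FreeGroup.lift ![x, y] w = x ^ i * y ^ j) := by
  induction w using FreeGroup.induction_on with
  | C1 => exact ⟨0, 0, by simp⟩
  | of a =>
    fin_cases a
    · exact ⟨1, 0, by simp⟩
    · exact ⟨0, 1, by simp⟩
  | inv_of a ih =>
    obtain ⟨i, j, h1, h2, h3⟩ := ih
    refine ⟨-i, -j, ?_, ?_, ?_⟩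
    · rw [map_inv, h1, zpow_neg]
    · rw [map_inv, h2, zpow_neg]
    · rw [map_inv, h3, mul_inv_rev, ← zpow_neg, ← zpow_neg]
      exact ((h.zpow_zpow (-i) (-j)).eq).symm
  | mul a b iha ihb =>
    obtain ⟨i, j, h1, h2, h3⟩ := iha
    obtain ⟨i', j', h1', h2', h3'⟩ := ihb
    refine ⟨i + i', j + j', ?_, ?_, ?_⟩
    · rw [map_mul, h1, h1', zpow_add]
    · rw [map_mul, h2, h2', zpow_add]
    · rw [map_mul, h3, h3', zpow_add, zpow_add]
      have := (h.zpow_zpow i' j).eq
      calc x ^ i * y ^ j * (x ^ i' * y ^ j') = x ^ i * (y ^ j * x ^ i') * y ^ j' := by group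
        _ = x ^ i * (x ^ i' * y ^ j) * y ^ j' := by rw [this]
        _ = x ^ i * x ^ i' * (y ^ j * y ^ j') := by group

theorem lift_commute_mul {A : Type} [Group A] (x y : A) (h : Commute x y)
    (w : FreeGroup (Fin 2)) :
    FreeGroup.lift ![x, y] w = FreeGroup.lift ![x, 1] w * FreeGroup.lift ![1, y] w := by
  obtain ⟨i, j, h1, h2, h3⟩ := lift_of_commute x y h w
  rw [h1, h2, h3]

theorem swap_zpow {A : Type} [Group A] (x y c : A) (hc : c = x * y * x⁻¹ * y⁻¹)
    (hx : Commute x c) (hy : Commute y c) (i j : ℤ) :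
    y ^ j * x ^ i = x ^ i * y ^ j * c ^ (-(i * j)) := by
  have h1 : x * y * x⁻¹ = c * y := by rw [hc]; group
  have h2 : x * y ^ j * x⁻¹ = c ^ j * y ^ j := by
    rw [← conj_zpow, h1, (hy.symm).mul_zpow]
  have h3 : y ^ j * x * (y ^ j)⁻¹ = c ^ (-j) * x := by
    have h4 : x * y ^ j = c ^ j * (y ^ j * x) := by
      calc x * y ^ j = x * y ^ j * x⁻¹ * x := by group
        _ = c ^ j * y ^ j * x := by rw [h2]
        _ = c ^ j * (y ^ j * x) := by group
    have h5 : y ^ j * x = c ^ (-j) * (x * y ^ j) := by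
      rw [h4]; group
    rw [h5]; group
  have h6 : y ^ j * x ^ i * (y ^ j)⁻¹ = c ^ (-(i * j)) * x ^ i := by
    rw [← conj_zpow, h3]
    have hcx : Commute (c ^ (-j)) x := (hx.zpow_right (-j)).symm
    rw [hcx.mul_zpow, ← zpow_mul]
    congr 2; ring
  have h7 : y ^ j * x ^ i = c ^ (-(i * j)) * x ^ i * y ^ j := by
    rw [← h6]; group
  rw [h7]
  have hcx : Commute (c ^ (-(i * j))) (x ^ i * y ^ j) := by
    apply Commute.mul_right
    · exact (hx.zpow_zpow i (-(i * j))).symm
    · exact (hy.zpow_zpow j (-(i * j))).symm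
  rw [mul_assoc, hcx.eq]

/-- Normal form of words in class two groups. -/
theorem normal_form (w : FreeGroup (Fin 2)) : ∃ i j m : ℤ, ∀ (A : Type) [Group A] (x y c : A),
    c = x * y * x⁻¹ * y⁻¹ → Commute x c → Commute y c →
      FreeGroup.lift ![x, y] w = x ^ i * y ^ j * c ^ m := by
  induction w using FreeGroup.induction_on with
  | C1 => exact ⟨0, 0, 0, by intros; simp⟩
  | of a =>
    fin_cases a
    · exact ⟨1, 0, 0, by intros; simp⟩
    · exact ⟨0, 1, 0, by intros; simp⟩
  | inv_of a ih =>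
    obtain ⟨i, j, m, h⟩ := ih
    refine ⟨-i, -j, -m - i * j, ?_⟩
    intro A _ x y c hc hx hy
    rw [map_inv, h A x y c hc hx hy, mul_inv_rev, mul_inv_rev, ← zpow_neg, ← zpow_neg,
      ← zpow_neg, swap_zpow x y c hc hx hy (-i) (-j)]
    have hcx : Commute (c ^ (-m)) (x ^ (-i) * y ^ (-j)) := by
      apply Commute.mul_right
      · exact (hx.zpow_zpow (-i) (-m)).symm
      · exact (hy.zpow_zpow (-j) (-m)).symm
    rw [← mul_assoc, hcx.eq, mul_assoc, ← zpow_add]
    congr 2; ring
  | mul a b iha ihb =>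
    obtain ⟨i, j, m, h⟩ := iha
    obtain ⟨i', j', m', h'⟩ := ihb
    refine ⟨i + i', j + j', m + m' - i' * j, ?_⟩
    intro A _ x y c hc hx hy
    rw [map_mul, h A x y c hc hx hy, h' A x y c hc hx hy]
    have hcx : Commute (c ^ m) (x ^ i' * y ^ j') := by
      apply Commute.mul_right
      · exact (hx.zpow_zpow i' m).symm
      · exact (hy.zpow_zpow j' m).symm
    have hcy : Commute (c ^ (-(i' * j))) (y ^ j') := (hy.zpow_zpow j' (-(i' * j))).symm
    calc x ^ i * y ^ j * c ^ m * (x ^ i' * y ^ j' * c ^ m')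
        = x ^ i * y ^ j * (c ^ m * (x ^ i' * y ^ j')) * c ^ m' := by group
      _ = x ^ i * y ^ j * ((x ^ i' * y ^ j') * c ^ m) * c ^ m' := by rw [hcx.eq]
      _ = x ^ i * (y ^ j * x ^ i') * y ^ j' * (c ^ m * c ^ m') := by group
      _ = x ^ i * (x ^ i' * y ^ j * c ^ (-(i' * j))) * y ^ j' * (c ^ m * c ^ m') := by
        rw [swap_zpow x y c hc hx hy i' j]
      _ = x ^ i * x ^ i' * y ^ j * (c ^ (-(i' * j)) * y ^ j') * (c ^ m * c ^ m') := by group
      _ = x ^ i * x ^ i' * y ^ j * (y ^ j' * c ^ (-(i' * j))) * (c ^ m * c ^ m') := by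
        rw [hcy.eq]
      _ = x ^ (i + i') * y ^ (j + j') * (c ^ (m + m' - i' * j)) := by
        rw [zpow_add, zpow_add, sub_eq_add_neg, zpow_add, zpow_add]
        have h8 : Commute (c ^ (-(i' * j))) (c ^ m * c ^ m') := by
          rw [← zpow_add]; exact Commute.zpow_zpow_self c _ _
        calc _ = x ^ i * x ^ i' * y ^ j * y ^ j' * (c ^ (-(i' * j)) * (c ^ m * c ^ m')) := by
              group
          _ = x ^ i * x ^ i' * y ^ j * y ^ j' * ((c ^ m * c ^ m') * c ^ (-(i' * j))) := by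
              rw [h8.eq]
          _ = _ := by group

/-- Powers of a product in class two groups. -/
theorem mul_pow_class_two {A : Type} [Group A] (x y c : A) (hc : c = x * y * x⁻¹ * y⁻¹)
    (hx : Commute x c) (hy : Commute y c) (e : ℕ) :
    (x * y) ^ e = x ^ e * y ^ e * c ^ (-(e.choose 2 : ℤ)) := by
  induction e with
  | zero => simp
  | succ e ih =>
    have hsw : y ^ e * x = x * y ^ e * c ^ (-(e : ℤ)) := by
      have := swap_zpow x y c hc hx hy 1 e
      simpa using this
    have hcxy : Commute (c ^ (-(e.choose 2 : ℤ))) (x * y) := by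
      apply Commute.mul_right
      · exact (hx.zpow_right _).symm
      · exact (hy.zpow_right _).symm
    have hcy : Commute (c ^ (-(e : ℤ))) y := (hy.zpow_right _).symm
    have hch : (((e + 1).choose 2 : ℕ) : ℤ) = (e : ℤ) + (e.choose 2 : ℤ) := by
      rw [Nat.choose_succ_succ' e 1, Nat.choose_one_right]; push_cast; ring
    rw [pow_succ, ih, hch]
    calc x ^ e * y ^ e * c ^ (-(e.choose 2 : ℤ)) * (x * y)
        = x ^ e * y ^ e * (c ^ (-(e.choose 2 : ℤ)) * (x * y)) := by group
      _ = x ^ e * y ^ e * ((x * y) * c ^ (-(e.choose 2 : ℤ))) := by rw [hcxy.eq]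
      _ = x ^ e * (y ^ e * x) * y * c ^ (-(e.choose 2 : ℤ)) := by group
      _ = x ^ e * (x * y ^ e * c ^ (-(e : ℤ))) * y * c ^ (-(e.choose 2 : ℤ)) := by rw [hsw]
      _ = x ^ e * x * y ^ e * (c ^ (-(e : ℤ)) * y) * c ^ (-(e.choose 2 : ℤ)) := by group
      _ = x ^ e * x * y ^ e * (y * c ^ (-(e : ℤ))) * c ^ (-(e.choose 2 : ℤ)) := by rw [hcy.eq]
      _ = x ^ (e + 1) * y ^ (e + 1) * c ^ (-((e : ℤ) + (e.choose 2 : ℤ))) := by
        rw [neg_add, zpow_add, pow_succ, pow_succ]; group

/-- A bijection `f` between groups such that the multiplication of the second group is given by a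
word in the first. -/
structure TermMap (A B : Type) [Group A] [Group B] where
  f : A ≃ B
  w : FreeGroup (Fin 2)
  hw : ∀ x y : A, f.symm (f x * f y) = FreeGroup.lift ![x, y] w

namespace TermMap

variable {A B : Type} [Group A] [Group B] (F : TermMap A B)

theorem mul_eq (x y : A) : F.f x * F.f y = F.f (FreeGroup.lift ![x, y] F.w) := by
  rw [← F.hw, Equiv.apply_symm_apply]

theorem f_one : F.f 1 = 1 := by
  have h := F.mul_eq 1 1
  have h2 : FreeGroup.lift ![(1 : A), 1] F.w = 1 := by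
    obtain ⟨i, j, h1, _, h3⟩ := lift_of_commute (1 : A) 1 (Commute.refl 1) F.w
    rw [h3]; simp
  rw [h2] at h
  exact mul_eq_left.mp h

theorem w_right (x : A) : FreeGroup.lift ![x, 1] F.w = x := by
  have h := F.mul_eq x 1
  rw [F.f_one, mul_one] at h
  exact (F.f.injective h).symm

theorem w_left (y : A) : FreeGroup.lift ![1, y] F.w = y := by
  have h := F.mul_eq 1 y
  rw [F.f_one, one_mul] at h
  exact (F.f.injective h).symm

theorem f_mul (x y : A) (h : Commute x y) : F.f (x * y) = F.f x * F.f y := by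
  rw [F.mul_eq, lift_commute_mul x y h, F.w_right, F.w_left]

theorem f_commute (x y : A) (h : Commute x y) : Commute (F.f x) (F.f y) := by
  change F.f x * F.f y = F.f y * F.f x
  rw [← F.f_mul x y h, ← F.f_mul y x h.symm, h.eq]

theorem f_pow (x : A) (n : ℕ) : F.f (x ^ n) = F.f x ^ n := by
  induction n with
  | zero => simp [F.f_one]
  | succ n ih => rw [pow_succ, F.f_mul _ _ (Commute.pow_self x n), ih, pow_succ]

theorem f_inv (x : A) : F.f x⁻¹ = (F.f x)⁻¹ := by
  have h := F.f_mul x x⁻¹ (Commute.inv_right (Commute.refl x))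
  rw [mul_inv_cancel, F.f_one] at h
  exact (inv_eq_of_mul_eq_one_right h.symm).symm

theorem f_zpow (x : A) (n : ℤ) : F.f (x ^ n) = F.f x ^ n := by
  cases n with
  | ofNat n => simpa using F.f_pow x n
  | negSucc n => rw [zpow_negSucc, zpow_negSucc, F.f_inv, F.f_pow]

/-- The word describing conjugation. -/
def kap : FreeGroup (Fin 2) := FreeGroup.lift ![F.w, (FreeGroup.of 0)⁻¹] F.w

theorem conj_eq (x y : A) : F.f x * F.f y * (F.f x)⁻¹ = F.f (FreeGroup.lift ![x, y] F.kap) := by
  rw [F.mul_eq, ← F.f_inv, F.mul_eq, kap, lift_lift]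
  simp

end TermMap

end Pool.Agent.Work.MP_d2f6cf_al
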