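import Pool.Agent.Work.MP_d2f6cf_al.Local
import Pool.Agent.Work.MP_d2f6cf_al.Words

set_option autoImplicit false

namespace Pool.Agent.Work.MP_d2f6cf_al

open Polynomial

instance : Fact (Nat.Prime 19) := ⟨by norm_num⟩

/-- The `19`-part, as a vector space over the field with `19` elements. -/
abbrev Vec : Type := (ZMod 3 → ZMod 19) × ZMod 19

variable {k : ZMod 9}

/-- The embedding of the `19`-part. -/
def iota (v : Vec) : GG k := (⟨v.1, fun _ => 0, 0, by simp⟩, ⟨v.2, 0, 0⟩)

/-- The action on the `19`-part. -/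
def rho : GG k →* Module.End (ZMod 19) Vec where
  toFun g :=
    { toFun := fun v => (fun i => e4 (g.1.n i) * v.1 (i - g.1.t), e4 g.2.j * v.2)
      map_add' := by
        intro u v
        refine Prod.ext ?_ ?_
        · funext i
          change e4 (g.1.n i) * (u.1 (i - g.1.t) + v.1 (i - g.1.t)) =
            e4 (g.1.n i) * u.1 (i - g.1.t) + e4 (g.1.n i) * v.1 (i - g.1.t)
          ring
        · change e4 g.2.j * (u.2 + v.2) = e4 g.2.j * u.2 + e4 g.2.j * v.2
          ring
      map_smul' := by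
        intro c v
        refine Prod.ext ?_ ?_
        · funext i
          change e4 (g.1.n i) * (c * v.1 (i - g.1.t)) = c * (e4 (g.1.n i) * v.1 (i - g.1.t))
          ring
        · change e4 g.2.j * (c * v.2) = c * (e4 g.2.j * v.2)
          ring }
  map_one' := by
    apply LinearMap.ext
    intro v
    refine Prod.ext ?_ ?_
    · funext i
      change e4 0 * v.1 (i - 0) = v.1 i
      rw [e4_zero, one_mul, sub_zero]
    · change e4 0 * v.2 = v.2
      rw [e4_zero, one_mul]
  map_mul' := by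
    intro g h
    apply LinearMap.ext
    intro v
    refine Prod.ext ?_ ?_
    · funext i
      change e4 (g.1.n i + h.1.n (i - g.1.t)) * v.1 (i - (g.1.t + h.1.t)) =
        e4 (g.1.n i) * (e4 (h.1.n (i - g.1.t)) * v.1 (i - g.1.t - h.1.t))
      rw [e4_add, mul_assoc, sub_sub]
    · change e4 (g.2.j + h.2.j) * v.2 = e4 g.2.j * (e4 h.2.j * v.2)
      rw [e4_add, mul_assoc]

theorem rho_fst (g : GG k) (v : Vec) (i : ZMod 3) :
    (rho g v).1 i = e4 (g.1.n i) * v.1 (i - g.1.t) := rfl
theorem rho_snd (g : GG k) (v : Vec) : (rho g v).2 = e4 g.2.j * v.2 := rfl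

theorem iota_zero : (iota 0 : GG k) = 1 := rfl

theorem iota_add (u v : Vec) : (iota (u + v) : GG k) = iota u * iota v := by
  refine Prod.ext ?_ ?_
  · ext i
    · change u.1 i + v.1 i = u.1 i + e4 0 * v.1 (i - 0)
      rw [e4_zero, one_mul, sub_zero]
    · change (0 : ZMod 9) = 0 + 0
      rw [add_zero]
    · change (0 : ZMod 3) = 0 + 0
      rw [add_zero]
  · ext
    · change u.2 + v.2 = u.2 + e4 0 * v.2
      rw [e4_zero, one_mul]
    · change (0 : ZMod 81) = 0 + (1 + c9 (k * 0)) * 0
      ring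
    · change (0 : ZMod 9) = 0 + 0
      rw [add_zero]

theorem iota_neg (v : Vec) : (iota (-v) : GG k) = (iota v)⁻¹ := by
  rw [eq_comm, inv_eq_iff_mul_eq_one, ← iota_add]
  simp [iota_zero]

theorem iota_inj {u v : Vec} (h : (iota u : GG k) = iota v) : u = v := by
  have h1 := congrArg (fun x : GG k => x.1.v) h
  have h2 := congrArg (fun x : GG k => x.2.w) h
  exact Prod.ext h1 h2

theorem iota_nsmul (n : ℕ) (v : Vec) : (iota (n • v) : GG k) = iota v ^ n := by
  induction n with
  | zero => simp [iota_zero]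
  | succ n ih => rw [succ_nsmul, iota_add, ih, pow_succ]

theorem iota_smul (c : ZMod 19) (v : Vec) : (iota (c • v) : GG k) = iota v ^ c.val := by
  rw [← iota_nsmul]
  congr 1
  have : c = ((c.val : ℕ) : ZMod 19) := (ZMod.natCast_zmod_val c).symm
  conv_lhs => rw [this]
  rw [Nat.cast_smul_eq_nsmul]

theorem conj_iota (g : GG k) (v : Vec) : g * iota v = iota (rho g v) * g := by
  refine Prod.ext ?_ ?_
  · ext i
    · change g.1.v i + e4 (g.1.n i) * v.1 (i - g.1.t) =
        e4 (g.1.n i) * v.1 (i - g.1.t) + e4 0 * g.1.v (i - 0)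
      rw [e4_zero, one_mul, sub_zero, add_comm]
    · change g.1.n i + 0 = 0 + g.1.n (i - 0)
      rw [sub_zero, zero_add, add_zero]
    · change g.1.t + 0 = 0 + g.1.t
      rw [zero_add, add_zero]
  · ext
    · change g.2.w + e4 g.2.j * v.2 = e4 g.2.j * v.2 + e4 0 * g.2.w
      rw [e4_zero, one_mul, add_comm]
    · change g.2.z + (1 + c9 (k * g.2.j)) * 0 = 0 + (1 + c9 (k * 0)) * g.2.z
      rw [mul_zero, mul_zero, c9_zero]; ring
    · change g.2.j + 0 = 0 + g.2.j
      rw [zero_add, add_zero]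

theorem BB.pow9 (b : BB) : b ^ 9 = 1 := by
  by_cases hb : b.t = 0
  · have h : ∀ n : ℕ, (∀ i, (b ^ n).n i = n * b.n i) ∧ (b ^ n).t = 0 := by
      intro n
      induction n with
      | zero => simp
      | succ n ih =>
        refine ⟨?_, ?_⟩
        · intro i
          rw [pow_succ, BB.mul_n, ih.1, ih.2, sub_zero]; push_cast; ring
        · rw [pow_succ, BB.mul_t, ih.2, hb, add_zero]
    have h9 : (9 : ZMod 9) = 0 := by decide
    ext i
    · rw [(h 9).1]
      push_cast
      rw [h9, zero_mul]; rfl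
    · exact (h 9).2
  · have h3 := BB.cube b hb
    calc b ^ 9 = (b ^ 3) ^ 3 := by rw [← pow_mul]
      _ = 1 := by rw [h3, one_pow]

theorem toBB_eq_of_rho (g h : GG k) (hr : rho g = rho h) :
    P1.toBB g.1 = P1.toBB h.1 ∧ g.2.j = h.2.j := by
  have h2 : g.2.j = h.2.j := by
    have := congrArg (fun L => (L ((fun _ => 0, 1) : Vec)).2) hr
    simp only [rho_snd, mul_one] at this
    exact e4_inj _ _ this
  have ht : g.1.t = h.1.t := by
    by_contra hne
    -- apply to the indicator of 0
    have := congrArg (fun L => (L ((fun i => if i = 0 then 1 else 0, 0) : Vec)).1 g.1.t) hr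
    simp only [rho_fst, sub_self, if_true, mul_one] at this
    have hne' : ¬ (g.1.t - h.1.t = 0) := fun h => hne (sub_eq_zero.mp h)
    rw [if_neg hne', mul_zero] at this
    exact e4_ne_zero _ this
  have hn : ∀ i, g.1.n i = h.1.n i := by
    intro i
    have := congrArg (fun L => (L ((fun _ => 1, 0) : Vec)).1 i) hr
    simp only [rho_fst, mul_one] at this
    exact e4_inj _ _ this
  refine ⟨?_, h2⟩
  ext i
  · exact hn i
  · exact ht

theorem rho_eq_of_toBB (g h : GG k) (h1 : P1.toBB g.1 = P1.toBB h.1) (h2 : g.2.j = h.2.j) :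
    rho g = rho h := by
  have hn : ∀ i, g.1.n i = h.1.n i := fun i => congrFun (congrArg BB.n h1) i
  have ht : g.1.t = h.1.t := congrArg BB.t h1
  apply LinearMap.ext
  intro v
  refine Prod.ext ?_ ?_
  · funext i
    rw [rho_fst, rho_fst, hn, ht]
  · rw [rho_snd, rho_snd, h2]

theorem P2.pow_j (x : P2 k) (n : ℕ) : (x ^ n).j = n * x.j := by
  induction n with
  | zero => simp
  | succ n ih => rw [pow_succ, P2.mul_j, ih]; push_cast; ring

theorem rho_pow9 (g : GG k) : (rho g) ^ 9 = 1 := by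
  rw [← map_pow, ← map_one (rho (k := k))]
  apply rho_eq_of_toBB
  · change P1.toBB (g.1 ^ 9) = P1.toBB 1
    rw [map_pow, BB.pow9, map_one]
  · change (g.2 ^ 9).j = 0
    rw [P2.pow_j]
    have : ((9 : ℕ) : ZMod 9) = 0 := by decide
    rw [this, zero_mul]

/-- An integer exponent reduced modulo `9`. -/
def r9 (i : ℤ) : ℕ := (i % 9).toNat

theorem rho_zpow (g : GG k) (i : ℤ) : rho (g ^ i) = (rho g) ^ (r9 i) := by
  have h1 : i = 9 * (i / 9) + ((i % 9).toNat : ℤ) := by
    rw [Int.toNat_of_nonneg (Int.emod_nonneg i (by norm_num))]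
    exact (Int.mul_ediv_add_emod i 9).symm
  have h9 : rho (g ^ (9 : ℤ)) = 1 := by
    have := rho_pow9 g
    rw [← map_pow] at this
    exact_mod_cast this
  have h9' : ∀ m : ℤ, rho ((g ^ (9 : ℤ)) ^ m) = 1 := by
    intro m
    rw [← MonoidHom.mem_ker]
    exact (MonoidHom.ker (rho (k := k))).zpow_mem (MonoidHom.mem_ker.mpr h9) m
  conv_lhs => rw [h1]
  rw [zpow_add, zpow_mul, map_mul, h9', one_mul, zpow_natCast, map_pow]
  rfl

/-- Every word acts on the `19`-part through a polynomial. -/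
theorem exists_poly (u : FreeGroup (Fin 2)) : ∃ (T : (ZMod 19)[X]) (i : ℤ),
    ∀ (k : ZMod 9) (g : GG k) (v : Vec),
      FreeGroup.lift ![g, iota v] u = iota (aeval (rho g) T v) * g ^ i := by
  induction u using FreeGroup.induction_on with
  | C1 => exact ⟨0, 0, by intro k g v; simp [iota_zero]⟩
  | of a =>
    fin_cases a
    · exact ⟨0, 1, by intro k g v; simp [iota_zero]⟩
    · exact ⟨1, 0, by intro k g v; simp⟩
  | inv_of a ih =>
    obtain ⟨T, i, h⟩ := ih
    refine ⟨-(X ^ (r9 (-i)) * T), -i, ?_⟩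
    intro k g v
    rw [map_inv, h k g v, mul_inv_rev, ← iota_neg, ← zpow_neg, conj_iota, rho_zpow]
    congr 2
    simp
  | mul a b iha ihb =>
    obtain ⟨T, i, h⟩ := iha
    obtain ⟨T', i', h'⟩ := ihb
    refine ⟨T + X ^ (r9 i) * T', i + i', ?_⟩
    intro k g v
    rw [map_mul, h k g v, h' k g v, zpow_add]
    calc iota (aeval (rho g) T v) * g ^ i * (iota (aeval (rho g) T' v) * g ^ i')
        = iota (aeval (rho g) T v) * (g ^ i * iota (aeval (rho g) T' v)) * g ^ i' := by group
      _ = iota (aeval (rho g) T v) * (iota (rho (g ^ i) (aeval (rho g) T' v)) * g ^ i) *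
            g ^ i' := by rw [conj_iota]
      _ = iota (aeval (rho g) T v + rho (g ^ i) (aeval (rho g) T' v)) * (g ^ i * g ^ i') := by
          rw [iota_add]; group
      _ = _ := by
          rw [rho_zpow]
          congr 2
          simp

/-- Interpolation: a polynomial which agrees with `X ^ e` at all ninth roots of unity of
`ZMod 19` acts as `ρ ^ e`. -/
theorem aeval_eq_pow (T : (ZMod 19)[X]) (e : ℕ) (hT : ∀ n : ℕ, T.eval (4 ^ n) = (4 ^ n) ^ e)
    (g : GG k) : aeval (rho g) T = (rho g) ^ e := by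
  have hprim : IsPrimitiveRoot (4 : ZMod 19) 9 := by
    rw [IsPrimitiveRoot.iff (by norm_num)]
    refine ⟨by decide, ?_⟩
    intro l hl1 hl2
    interval_cases l <;> decide
  have hdvd : (X ^ 9 - 1 : (ZMod 19)[X]) ∣ T - X ^ e := by
    rw [X_pow_sub_one_eq_prod (by norm_num : 0 < 9) hprim]
    apply Finset.prod_dvd_of_coprime
    · intro a _ b _ hab
      exact isCoprime_X_sub_C_of_isUnit_sub (by
        rw [isUnit_iff_ne_zero]; exact sub_ne_zero.mpr hab)
    · intro a ha
      rw [dvd_iff_isRoot]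
      have ha' := (Polynomial.mem_nthRootsFinset (by norm_num : 0 < 9) 1).mp ha
      obtain ⟨n, _, hn⟩ := hprim.eq_pow_of_pow_eq_one ha'
      rw [IsRoot.def, eval_sub, eval_pow, eval_X, ← hn, hT n, sub_self]
  obtain ⟨Q, hQ⟩ := hdvd
  have h1 : aeval (rho g) (T - X ^ e) = 0 := by
    rw [hQ, map_mul, map_sub, map_pow, aeval_X, map_one, rho_pow9, sub_self, zero_mul]
  rw [map_sub, map_pow, aeval_X, sub_eq_zero] at h1
  exact h1

end Pool.Agent.Work.MP_d2f6cf_al
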