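import Pool.Agent.Work.MP_d2f6cf_al.Local
import Pool.Agent.Work.MP_d2f6cf_al.Words

set_option autoImplicit false

namespace Pool.Agent.Work.MP_d2f6cf_al

/-- The wreath product `C_9 ≀ (C_3 × C_3)`. -/
@[ext]
structure WW where
  f : ZMod 3 → ZMod 3 → ZMod 9
  a : ZMod 3
  b : ZMod 3

namespace WW

instance : Mul WW := ⟨fun x y =>
  ⟨fun s t => x.f s t + y.f (s - x.a) (t - x.b), x.a + y.a, x.b + y.b⟩⟩
instance : One WW := ⟨⟨fun _ _ => 0, 0, 0⟩⟩
instance : Inv WW := ⟨fun x => ⟨fun s t => - x.f (s + x.a) (t + x.b), -x.a, -x.b⟩⟩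

@[simp] theorem mul_f (x y : WW) (s t : ZMod 3) :
    (x * y).f s t = x.f s t + y.f (s - x.a) (t - x.b) := rfl
@[simp] theorem mul_a (x y : WW) : (x * y).a = x.a + y.a := rfl
@[simp] theorem mul_b (x y : WW) : (x * y).b = x.b + y.b := rfl
@[simp] theorem one_f (s t : ZMod 3) : (1 : WW).f s t = 0 := rfl
@[simp] theorem one_a : (1 : WW).a = 0 := rfl
@[simp] theorem one_b : (1 : WW).b = 0 := rfl
@[simp] theorem inv_f (x : WW) (s t : ZMod 3) : (x⁻¹).f s t = - x.f (s + x.a) (t + x.b) := rfl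
@[simp] theorem inv_a (x : WW) : (x⁻¹).a = - x.a := rfl
@[simp] theorem inv_b (x : WW) : (x⁻¹).b = - x.b := rfl

instance : Group WW := Group.ofLeftAxioms
  (by
    intro x y z
    ext s t
    · simp only [mul_f, mul_a, mul_b, add_assoc, sub_sub]
    · simp only [mul_a, add_assoc]
    · simp only [mul_b, add_assoc])
  (by
    intro x
    ext s t
    · simp
    · simp
    · simp)
  (by
    intro x
    ext s t
    · simp
    · simp
    · simp)

end WW

/-- The relation between four elements of `BB` and an element of `WW`. -/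
structure Rel (b1 b2 b3 b4 : BB) (z : WW) : Prop where
  h1 : b1.t = z.a
  h2 : b2.t = z.b
  h3 : b3.t = z.a + z.b
  h4 : b4.t = z.a - z.b
  hf : ∀ s t : ZMod 3, z.f s t = b1.n s + b2.n t + b3.n (s + t) + b4.n (s - t)

theorem Rel.one : Rel 1 1 1 1 1 := by
  constructor <;> simp

theorem Rel.mul {b1 b2 b3 b4 : BB} {z : WW} {b1' b2' b3' b4' : BB} {z' : WW}
    (h : Rel b1 b2 b3 b4 z) (h' : Rel b1' b2' b3' b4' z') :
    Rel (b1 * b1') (b2 * b2') (b3 * b3') (b4 * b4') (z * z') := by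
  constructor
  · rw [BB.mul_t, h.h1, h'.h1, WW.mul_a]
  · rw [BB.mul_t, h.h2, h'.h2, WW.mul_b]
  · rw [BB.mul_t, h.h3, h'.h3, WW.mul_a, WW.mul_b]; ring
  · rw [BB.mul_t, h.h4, h'.h4, WW.mul_a, WW.mul_b]; ring
  · intro s t
    rw [WW.mul_f, h.hf, h'.hf, BB.mul_n, BB.mul_n, BB.mul_n, BB.mul_n, h.h1, h.h2, h.h3, h.h4]
    have e1 : s - z.a + (t - z.b) = s + t - (z.a + z.b) := by ring
    have e2 : s - z.a - (t - z.b) = s - t - (z.a - z.b) := by ring
    rw [e1, e2]; ring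

theorem Rel.inv {b1 b2 b3 b4 : BB} {z : WW} (h : Rel b1 b2 b3 b4 z) :
    Rel (b1⁻¹) (b2⁻¹) (b3⁻¹) (b4⁻¹) (z⁻¹) := by
  constructor
  · rw [BB.inv_t, h.h1, WW.inv_a]
  · rw [BB.inv_t, h.h2, WW.inv_b]
  · rw [BB.inv_t, h.h3, WW.inv_a, WW.inv_b]; ring
  · rw [BB.inv_t, h.h4, WW.inv_a, WW.inv_b]; ring
  · intro s t
    rw [WW.inv_f, h.hf, BB.inv_n, BB.inv_n, BB.inv_n, BB.inv_n, h.h1, h.h2, h.h3, h.h4]
    have e1 : s + z.a + (t + z.b) = s + t + (z.a + z.b) := by ring
    have e2 : s + z.a - (t + z.b) = s - t + (z.a - z.b) := by ring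
    rw [e1, e2]; ring

/-- The function `0 ↦ -1, 1 ↦ 0, 2 ↦ 1`. -/
def np (t : ZMod 3) : ZMod 9 := if t = 0 then -1 else if t = 1 then 0 else 1

theorem np_sum : np 0 + np 1 + np 2 = 0 := by decide

def bx1 : BB := ⟨fun _ => 0, 1, by simp⟩
def bx2 : BB := ⟨fun t => - np t, 0, by decide⟩
def by1 : BB := ⟨np, 0, by decide⟩
def by3 : BB := ⟨np, 1, by decide⟩
def by4 : BB := ⟨np, -1, by decide⟩

def xh : WW := ⟨fun _ t => - np t, 1, 0⟩
def yh : WW := ⟨fun s t => np s + np (s + t) + np (s - t), 0, 1⟩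
def ch : WW := ⟨fun _ _ => -1, 0, 0⟩

theorem rel_x : Rel bx1 bx2 bx1 bx1 xh := by
  constructor
  · rfl
  · rfl
  · decide
  · decide
  · intro s t
    simp [bx1, bx2, xh]

theorem rel_y : Rel by1 bx1 by3 by4 yh := by
  constructor
  · rfl
  · rfl
  · decide
  · decide
  · intro s t
    simp [by1, bx1, by3, by4, yh]

theorem rel_lift (u : FreeGroup (Fin 2)) :
    Rel (FreeGroup.lift ![bx1, by1] u) (FreeGroup.lift ![bx2, bx1] u)
      (FreeGroup.lift ![bx1, by3] u) (FreeGroup.lift ![bx1, by4] u)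
      (FreeGroup.lift ![xh, yh] u) := by
  induction u using FreeGroup.induction_on with
  | C1 => simpa using Rel.one
  | of a =>
    fin_cases a
    · simpa using rel_x
    · simpa using rel_y
  | inv_of a ih =>
    simp only [map_inv]
    exact ih.inv
  | mul a b iha ihb =>
    simp only [map_mul]
    exact iha.mul ihb

/-- Laws of `BB` are laws of the Heisenberg group inside `WW`. -/
theorem law_transfer (u : FreeGroup (Fin 2)) (h : ∀ x y : BB, FreeGroup.lift ![x, y] u = 1) :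
    FreeGroup.lift ![xh, yh] u = 1 := by
  have hr := rel_lift u
  rw [h, h, h, h] at hr
  have h1 := hr.h1
  have h2 := hr.h2
  have hf := hr.hf
  ext s t
  · rw [hf s t]; simp
  · rw [← h1]; rfl
  · rw [← h2]; rfl

theorem ch_eq : ch = xh * yh * xh⁻¹ * yh⁻¹ := by
  have key : ∀ s t : ZMod 3, ch.f s t = (xh * yh * xh⁻¹ * yh⁻¹).f s t := by decide
  ext s t
  · rw [key]
  · decide
  · decide

theorem comm_xc : Commute xh ch := by
  change xh * ch = ch * xh
  ext s t
  · simp [xh, ch]; ring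
  · simp [xh, ch]
  · simp [xh, ch]

theorem comm_yc : Commute yh ch := by
  change yh * ch = ch * yh
  ext s t
  · simp [yh, ch]; ring
  · simp [yh, ch]
  · simp [yh, ch]

theorem ch_zpow (m : ℤ) : ch ^ m = ⟨fun _ _ => - (m : ZMod 9), 0, 0⟩ := by
  have hn : ∀ n : ℕ, ch ^ n = ⟨fun _ _ => - (n : ZMod 9), 0, 0⟩ := by
    intro n
    induction n with
    | zero => ext s t <;> simp
    | succ n ih =>
      rw [pow_succ, ih]
      ext s t
      · simp only [WW.mul_f, ch]; push_cast; ring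
      · simp [ch]
      · simp [ch]
  cases m with
  | ofNat n => simpa using hn n
  | negSucc n =>
    rw [zpow_negSucc, hn]
    ext s t
    · simp only [WW.inv_f]; push_cast; ring
    · simp
    · simp

theorem xh_pow9 : xh ^ 9 = 1 := by
  have key : ∀ s t : ZMod 3, (xh ^ 9).f s t = 0 := by decide
  ext s t
  · rw [key]; rfl
  · decide
  · decide

theorem yh_pow9 : yh ^ 9 = 1 := by
  have key : ∀ s t : ZMod 3, (yh ^ 9).f s t = 0 := by decide
  ext s t
  · rw [key]; rfl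
  · decide
  · decide

/-- The relation between the exponent and the commutator coefficient. -/
theorem heis_relation (w : FreeGroup (Fin 2)) (i j m : ℤ) (e : ℕ)
    (hnf : FreeGroup.lift ![xh, yh] w = xh ^ i * yh ^ j * ch ^ m)
    (hi : xh ^ i = xh) (hj : yh ^ j = yh)
    (hlaw : ∀ x y : BB, (FreeGroup.lift ![x, y] w) ^ e = x ^ e * y ^ e) :
    ((m : ZMod 9) * (e : ZMod 9)) = ((e.choose 2 : ℕ) : ZMod 9) := by
  have h1 := law_transfer (w ^ e * ((FreeGroup.of 0) ^ e * (FreeGroup.of 1) ^ e)⁻¹) (by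
    intro x y
    simp [hlaw x y])
  have h2 : (FreeGroup.lift ![xh, yh] w) ^ e = xh ^ e * yh ^ e := by
    have : (FreeGroup.lift ![xh, yh] w) ^ e * (xh ^ e * yh ^ e)⁻¹ = 1 := by
      simpa using h1
    exact mul_inv_eq_one.mp this
  rw [hnf, hi, hj] at h2
  have hcm : Commute (xh * yh) (ch ^ m) := by
    apply Commute.mul_left
    · exact comm_xc.zpow_right m
    · exact comm_yc.zpow_right m
  rw [hcm.mul_pow, mul_pow_class_two xh yh ch ch_eq comm_xc comm_yc e, mul_assoc] at h2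
  have h3 : ch ^ (-(e.choose 2 : ℤ)) * (ch ^ m) ^ e = 1 := by
    have := mul_left_cancel (a := xh ^ e * yh ^ e) (b := ch ^ (-(e.choose 2 : ℤ)) * (ch ^ m) ^ e)
      (c := 1) (by rw [h2, mul_one])
    exact this
  rw [← zpow_natCast, ← zpow_mul, ← zpow_add, ch_zpow] at h3
  have h4 := congrArg (fun z => WW.f z 0 0) h3
  simp only [WW.one_f] at h4
  push_cast at h4
  linear_combination (-1 : ZMod 9) * h4

end Pool.Agent.Work.MP_d2f6cf_al
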