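import Pool.Agent.Work.MP_d2f6cf_al.Lattice
import Pool.Agent.Work.MP_d2f6cf_al.Heis
import Pool.Agent.Work.MP_d2f6cf_al.Action

set_option autoImplicit false

namespace Pool.Agent.Work.MP_d2f6cf_al

open Polynomial

/-- The generator of the cyclic factor of order `9`. -/
def b0 (k : ZMod 9) : GG k := (1, ⟨0, 0, 1⟩)
/-- The generator of the cyclic factor of order `81`. -/
def z0 (k : ZMod 9) : GG k := (1, ⟨0, 1, 0⟩)
/-- The basis vector of the last coordinate. -/
def e0 : Vec := (fun _ => 0, 1)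

variable {k : ZMod 9}

theorem rho_b0 : rho (b0 k) e0 = (4 : ZMod 19) • e0 := by
  refine Prod.ext ?_ ?_
  · funext i
    change e4 0 * 0 = 4 * 0
    ring
  · change e4 1 * 1 = 4 * 1
    decide

theorem aeval_b0 (T : (ZMod 19)[X]) : aeval (rho (b0 k)) T e0 = T.eval 4 • e0 := by
  apply Module.End.aeval_apply_of_hasEigenvector
  rw [Module.End.hasEigenvector_iff]
  refine ⟨Module.End.mem_eigenspace_iff.mpr rho_b0, ?_⟩
  intro h
  have := congrArg Prod.snd h
  exact one_ne_zero (α := ZMod 19) this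

theorem aeval_b0_pow (T : (ZMod 19)[X]) (n : ℕ) :
    aeval (rho ((b0 k) ^ n)) T e0 = T.eval (4 ^ n) • e0 := by
  have h : rho ((b0 k) ^ n) = aeval (rho (b0 k)) (X ^ n : (ZMod 19)[X]) := by
    rw [map_pow, map_pow, aeval_X]
  rw [h, ← aeval_comp, aeval_b0, eval_comp, eval_pow, eval_X]

theorem smul_e0_inj {a b : ZMod 19} (h : a • e0 = b • e0) : a = b := by
  have := congrArg Prod.snd h
  change a * 1 = b * 1 at this
  simpa using this

/-- Elements of order dividing `19` are in the `19`-part. -/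
theorem exists_iota (x : GG k) (hx : x ^ 19 = 1) : ∃ v : Vec, x = iota v := by
  have hB : P1.toBB x.1 = 1 := by
    have h1 : (P1.toBB x.1) ^ 19 = 1 := by
      rw [← map_pow]
      have : x.1 ^ 19 = 1 := congrArg Prod.fst hx
      rw [this, map_one]
    calc P1.toBB x.1 = (P1.toBB x.1) ^ 19 * (((P1.toBB x.1) ^ 9) ^ 2)⁻¹ := by group
      _ = 1 := by rw [h1, BB.pow9]; simp
  have h2 : x.2 ^ 19 = 1 := congrArg Prod.snd hx
  have hj : x.2.j = 0 := by
    have := congrArg P2.j h2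
    rw [P2.pow_j] at this
    have h19 : ((19 : ℕ) : ZMod 9) = 1 := by decide
    rw [h19, one_mul] at this
    exact this
  obtain ⟨_, hz, _⟩ := P2.pow_of_j x.2 hj 19
  rw [h2] at hz
  have hz0 : x.2.z = 0 := by
    have h3 : ∀ z : ZMod 81, (0 : ZMod 81) = ((19 : ℕ) : ZMod 81) * z → z = 0 := by decide
    exact h3 _ hz
  refine ⟨(x.1.v, x.2.w), ?_⟩
  refine Prod.ext ?_ ?_
  · ext i
    · rfl
    · exact congrFun (congrArg BB.n hB) i
    · exact congrArg BB.t hB
  · ext
    · rfl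
    · exact hz0
    · exact hj

theorem iota_pow19 (v : Vec) : (iota v : GG k) ^ 19 = 1 := by
  rw [← iota_nsmul]
  have : (19 : ℕ) • v = 0 := by
    rw [← Nat.cast_smul_eq_nsmul (ZMod 19)]
    have : ((19 : ℕ) : ZMod 19) = 0 := by decide
    rw [this, zero_smul]
  rw [this, iota_zero]

/-- An element centralising the `19`-part acts trivially. -/
theorem rho_eq_one (x : GG k) (h : ∀ v : Vec, Commute x (iota v)) : rho x = 1 := by
  apply LinearMap.ext
  intro v
  have h1 := (h v).eq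
  rw [conj_iota] at h1
  exact iota_inj (mul_right_cancel h1)

theorem z0_commute (v : Vec) : Commute (z0 k) (iota v) := by
  change z0 k * iota v = iota v * z0 k
  rw [conj_iota]
  congr 2
  refine Prod.ext ?_ ?_
  · funext i
    rw [rho_fst]
    change e4 0 * v.1 (i - 0) = v.1 i
    rw [e4_zero, one_mul, sub_zero]
  · rw [rho_snd]
    change e4 0 * v.2 = v.2
    rw [e4_zero, one_mul]

theorem z0_pow (n : ℕ) : (z0 k) ^ n = (1, ⟨0, n, 0⟩) := by
  refine Prod.ext ?_ ?_
  · change (1 : P1) ^ n = 1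
    rw [one_pow]
  · obtain ⟨h1, h2, h3⟩ := P2.pow_of_j (z0 k).2 rfl n
    ext
    · change ((z0 k).2 ^ n).w = 0
      rw [h1]; exact mul_zero _
    · change ((z0 k).2 ^ n).z = n
      rw [h2]; exact mul_one _
    · exact h3

/-- Structure of an element which commutes with the `19`-part and has order dividing `81`. -/
theorem structure_z (x : GG k) (h : ∀ v : Vec, Commute x (iota v)) (h81 : x ^ 81 = 1) :
    x.1 = 1 ∧ x.2.w = 0 ∧ x.2.j = 0 := by
  have hr := rho_eq_one x h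
  rw [← map_one (rho (k := k))] at hr
  obtain ⟨h1, h2⟩ := toBB_eq_of_rho x 1 hr
  have h1' : P1.toBB x.1 = 1 := by rw [h1]; exact map_one _
  have hj : x.2.j = 0 := h2
  obtain ⟨ha, _⟩ := P1.pow_of_toBB x.1 h1' 81
  have hx1 : x.1 ^ 81 = 1 := congrArg Prod.fst h81
  have hx2 : x.2 ^ 81 = 1 := congrArg Prod.snd h81
  obtain ⟨hb, _, _⟩ := P2.pow_of_j x.2 hj 81
  have hc : ∀ z : ZMod 19, (0 : ZMod 19) = ((81 : ℕ) : ZMod 19) * z → z = 0 := by decide
  refine ⟨?_, ?_, hj⟩
  · ext i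
    · have := ha i
      rw [hx1] at this
      exact hc _ this
    · exact congrFun (congrArg BB.n h1') i
    · exact congrArg BB.t h1'
  · rw [hx2] at hb
    exact hc _ hb

theorem b0_zpow_eq (i : ℤ) (h : (z0 k) ^ i = z0 k) : (81 : ℤ) ∣ i - 1 := by
  have h1 : (z0 k) ^ (i - 1) = 1 := by
    rw [zpow_sub, h]; simp
  have h2 : orderOf (z0 k) = 81 := by
    have h3 : (z0 k) ^ 81 = 1 := by
      rw [z0_pow]
      refine Prod.ext rfl ?_
      ext
      · rfl
      · change ((81 : ℕ) : ZMod 81) = 0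
        decide
      · rfl
    have h4 : (z0 k) ^ 27 ≠ 1 := by
      rw [z0_pow]
      intro h
      have := congrArg (fun x : GG k => x.2.z) h
      change ((27 : ℕ) : ZMod 81) = 0 at this
      exact absurd this (by decide)
    have := orderOf_eq_prime_pow (x := z0 k) (p := 3) (n := 3) (by simpa using h4)
      (by simpa using h3)
    simpa using this
  have := orderOf_dvd_iff_zpow_eq_one.mpr h1
  rw [h2] at this
  exact_mod_cast this

theorem zpow_eq_self_of_dvd {A : Type} [Group A] (x : A) (n : ℕ) (hx : x ^ n = 1) (i : ℤ)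
    (h : (n : ℤ) ∣ i - 1) : x ^ i = x := by
  obtain ⟨q, hq⟩ := h
  have : i = n * q + 1 := by linarith
  rw [this, zpow_add, zpow_mul, zpow_natCast, hx, one_zpow, one_mul, zpow_one]

theorem b0_pow9 : (b0 k) ^ 9 = 1 := by
  have h : ∀ n : ℕ, (b0 k) ^ n = (1, ⟨0, 0, n⟩) := by
    intro n
    induction n with
    | zero => simp; rfl
    | succ n ih =>
      rw [pow_succ, ih]
      refine Prod.ext ?_ ?_
      · change (1 : P1) * 1 = 1
        rw [one_mul]
      · ext
        · change (0 : ZMod 19) + e4 n * 0 = 0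
          ring
        · change (0 : ZMod 81) + (1 + c9 (k * n)) * 0 = 0
          ring
        · change (n : ZMod 9) + 1 = ((n + 1 : ℕ) : ZMod 9)
          push_cast; rfl
  rw [h]
  refine Prod.ext rfl ?_
  ext
  · rfl
  · rfl
  · change ((9 : ℕ) : ZMod 9) = 0
    decide

/-- The embedding of `BB` in the first factor. -/
def sB : BB →* GG k := (MonoidHom.inl P1 (P2 k)).comp P1.ofBB

theorem sB_inj_of_rho (b b' : BB) (h : rho (sB b : GG k) = rho (sB b' : GG k)) : b = b' := by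
  obtain ⟨h1, _⟩ := toBB_eq_of_rho _ _ h
  exact h1

theorem c9_intCast (n : ℤ) : c9 (n : ZMod 9) = 9 * (n : ZMod 81) := by
  have hnat : ∀ n : ℕ, c9 (n : ZMod 9) = 9 * (n : ZMod 81) := by
    intro n
    have h := c9_natmul n 1
    have h1 : c9 1 = 9 := by decide
    rw [mul_one, h1] at h
    rw [h]; ring
  cases n with
  | ofNat n => simpa using hnat n
  | negSucc n =>
    rw [Int.cast_negSucc, Int.cast_negSucc, c9_neg, hnat]; ring

theorem P2.zpow_of_j (x : P2 k) (hx : x.j = 0) (n : ℤ) :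
    (x ^ n).z = n * x.z ∧ (x ^ n).j = 0 := by
  cases n with
  | ofNat n =>
    obtain ⟨_, h2, h3⟩ := P2.pow_of_j x hx n
    exact ⟨by simpa using h2, by simpa using h3⟩
  | negSucc n =>
    obtain ⟨_, h2, h3⟩ := P2.pow_of_j x hx (n + 1)
    rw [zpow_negSucc]
    refine ⟨?_, ?_⟩
    · rw [P2.inv_z, h2, h3, mul_zero, c9_zero, Int.cast_negSucc]; ring
    · rw [P2.inv_j, h3, neg_zero]

theorem final_arith : ∀ e : ℕ, e < 9 → ∀ m : ZMod 9,
    m * (e : ZMod 9) = ((e.choose 2 : ℕ) : ZMod 9) → 4 * (e : ZMod 9) = 1 + 2 * m →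
      e % 3 = 0 := by decide

theorem c9_kernel : ∀ n : ZMod 9, ∀ z : ZMod 81, c9 n * z = 0 → 27 * z ≠ 0 → n = 0 := by
  decide

/-- The two groups are not term equivalent. -/
theorem not_termEquiv (F : TermMap (GG 1) (GG 4)) (F' : TermMap (GG 4) (GG 1))
    (hF : ∀ x, F'.f (F.f x) = x) (hF' : ∀ x, F.f (F'.f x) = x) : False := by
  obtain ⟨T, i0, hT⟩ := exists_poly F.kap
  -- the conjugation formula
  have hconj : ∀ (g : GG 1) (v : Vec),
      F.f g * F.f (iota v) * (F.f g)⁻¹ = F.f (iota (aeval (rho g) T v)) := by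
    intro g v
    have h0 : g ^ i0 = 1 := by
      have h1 := F.conj_eq g (iota 0)
      rw [hT 1 g 0, iota_zero, F.f_one, mul_one, mul_inv_cancel, map_zero, iota_zero,
        one_mul] at h1
      have h2 : F.f (g ^ i0) = F.f 1 := by rw [F.f_one]; exact h1.symm
      exact F.f.injective h2
    rw [F.conj_eq, hT 1 g v, h0, mul_one]
  -- multiplicativity of the eigenvalue function
  have hstep : ∀ (n : ℕ) (c : ZMod 19), (F.f (b0 1)) ^ n * F.f (iota (c • e0)) *
      ((F.f (b0 1)) ^ n)⁻¹ = F.f (iota (((T.eval 4) ^ n * c) • e0)) := by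
    intro n
    induction n with
    | zero => intro c; simp
    | succ n ih =>
      intro c
      have h1 : F.f (b0 1) * F.f (iota (c • e0)) * (F.f (b0 1))⁻¹ =
          F.f (iota ((T.eval 4 * c) • e0)) := by
        rw [hconj, map_smul, aeval_b0, smul_smul, mul_comm]
      calc (F.f (b0 1)) ^ (n + 1) * F.f (iota (c • e0)) * ((F.f (b0 1)) ^ (n + 1))⁻¹
          = (F.f (b0 1)) ^ n * (F.f (b0 1) * F.f (iota (c • e0)) * (F.f (b0 1))⁻¹) *
            ((F.f (b0 1)) ^ n)⁻¹ := by rw [pow_succ]; group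
        _ = F.f (iota (((T.eval 4) ^ (n + 1) * c) • e0)) := by
            rw [h1, ih, pow_succ]; congr 3; ring
  have hmult : ∀ n : ℕ, T.eval (4 ^ n) = (T.eval 4) ^ n := by
    intro n
    have h1 := hstep n 1
    rw [← F.f_pow, mul_one, one_smul, hconj, aeval_b0_pow] at h1
    exact smul_e0_inj (iota_inj (F.f.injective h1))
  have h49 : (T.eval 4) ^ 9 = 1 := by
    have h1 := hmult 9
    have h2 := hmult 0
    have h3 : (4 : ZMod 19) ^ 9 = 4 ^ 0 := by decide
    rw [h3] at h1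
    rw [← h1, h2, pow_zero]
  obtain ⟨e, he9, he⟩ : ∃ e : ℕ, e < 9 ∧ T.eval 4 = 4 ^ e := by
    have h1 : ∀ a : ZMod 19, a ^ 9 = 1 → ∃ e : ℕ, e < 9 ∧ a = 4 ^ e := by decide
    exact h1 _ h49
  have hTe : ∀ n : ℕ, T.eval (4 ^ n) = (4 ^ n) ^ e := by
    intro n
    rw [hmult, he, ← pow_mul, ← pow_mul, mul_comm]
  have hrho : ∀ g : GG 1, aeval (rho g) T = (rho g) ^ e := fun g => aeval_eq_pow T e hTe g
  have hconj' : ∀ (g : GG 1) (v : Vec),
      F.f g * F.f (iota v) * (F.f g)⁻¹ = F.f (iota (((rho g) ^ e) v)) := by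
    intro g v
    rw [hconj, hrho]
  -- the exponent is prime to `3`
  have he3 : e % 3 ≠ 0 := by
    intro h3
    have h1 : F.f ((b0 1) ^ 3) * F.f (iota e0) * (F.f ((b0 1) ^ 3))⁻¹ = F.f (iota e0) := by
      rw [hconj, aeval_b0_pow, hTe, ← pow_mul]
      have h4 : (4 : ZMod 19) ^ (3 * e) = 1 := by
        obtain ⟨q, hq⟩ := Nat.dvd_of_mod_eq_zero h3
        rw [hq, ← mul_assoc, pow_mul]
        have : (4 : ZMod 19) ^ (3 * 3) = 1 := by decide
        rw [this, one_pow]
      rw [h4, one_smul]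
    have h2 : Commute (F.f ((b0 1) ^ 3)) (F.f (iota e0)) := by
      change F.f ((b0 1) ^ 3) * F.f (iota e0) = F.f (iota e0) * F.f ((b0 1) ^ 3)
      exact mul_inv_eq_iff_eq_mul.mp h1
    have h5 := F'.f_commute _ _ h2
    rw [hF, hF] at h5
    have h6 := h5.eq
    rw [conj_iota] at h6
    have h7 := iota_inj (mul_right_cancel h6)
    have h8 := congrArg Prod.snd h7
    rw [rho_snd] at h8
    have h9 : ((b0 1) ^ 3).2.j = 3 := by
      change ((b0 1).2 ^ 3).j = 3
      rw [P2.pow_j]; decide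
    rw [h9] at h8
    exact absurd h8 (by decide)
  -- the law on `BB`
  have hlawrho : ∀ g h : GG 1,
      (rho (FreeGroup.lift ![g, h] F.w)) ^ e = (rho g) ^ e * (rho h) ^ e := by
    intro g h
    apply LinearMap.ext
    intro v
    have h1 := hconj' (FreeGroup.lift ![g, h] F.w) v
    rw [← F.mul_eq] at h1
    have h2 : F.f g * F.f h * F.f (iota v) * (F.f g * F.f h)⁻¹ =
        F.f g * (F.f h * F.f (iota v) * (F.f h)⁻¹) * (F.f g)⁻¹ := by group
    rw [h2, hconj', hconj'] at h1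
    exact (iota_inj (F.f.injective h1)).symm
  have hlaw : ∀ x y : BB, (FreeGroup.lift ![x, y] F.w) ^ e = x ^ e * y ^ e := by
    intro x y
    apply sB_inj_of_rho (k := 1)
    rw [map_pow, map_lift2, map_pow, hlawrho, map_mul, map_mul, map_pow, map_pow, map_pow,
      map_pow]
  -- normal form
  obtain ⟨i, j, m, hnf⟩ := normal_form F.w
  have hi81 : (81 : ℤ) ∣ i - 1 := by
    apply b0_zpow_eq (k := 1)
    have h1 := hnf (GG 1) (z0 1) 1 1 (by simp) (Commute.one_right _) (Commute.one_right _)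
    rw [F.w_right] at h1
    simpa using h1.symm
  have hj81 : (81 : ℤ) ∣ j - 1 := by
    apply b0_zpow_eq (k := 1)
    have h1 := hnf (GG 1) 1 (z0 1) 1 (by simp) (Commute.one_right _) (Commute.one_right _)
    rw [F.w_left] at h1
    simpa using h1.symm
  have hi9 : ((9 : ℕ) : ℤ) ∣ i - 1 := dvd_trans (by norm_num) hi81
  have hj9 : ((9 : ℕ) : ℤ) ∣ j - 1 := dvd_trans (by norm_num) hj81
  have hE : ((m : ZMod 9) * (e : ZMod 9)) = ((e.choose 2 : ℕ) : ZMod 9) := by
    apply heis_relation F.w i j m e (hnf WW xh yh ch ch_eq comm_xc comm_yc)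
    · exact zpow_eq_self_of_dvd xh 9 xh_pow9 i hi9
    · exact zpow_eq_self_of_dvd yh 9 yh_pow9 j hj9
    · exact hlaw
  -- every element of the `19`-part of the second group is an image
  have hsurj : ∀ v' : Vec, ∃ v : Vec, (iota v' : GG 4) = F.f (iota v) := by
    intro v'
    have h1 : (F'.f (iota v')) ^ 19 = 1 := by
      rw [← F'.f_pow, iota_pow19, F'.f_one]
    obtain ⟨v, hv⟩ := exists_iota _ h1
    exact ⟨v, by rw [← hv, hF']⟩
  -- the image of `z0`
  have hz0comm : ∀ v' : Vec, Commute (F.f (z0 1)) (iota v') := by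
    intro v'
    obtain ⟨v, hv⟩ := hsurj v'
    rw [hv]
    exact F.f_commute _ _ (z0_commute v)
  have hz081 : (F.f (z0 1)) ^ 81 = 1 := by
    rw [← F.f_pow]
    have : (z0 1) ^ 81 = 1 := by
      rw [z0_pow]
      refine Prod.ext rfl ?_
      ext
      · rfl
      · change ((81 : ℕ) : ZMod 81) = 0
        decide
      · rfl
    rw [this, F.f_one]
  obtain ⟨hz1, hzw, hzj⟩ := structure_z _ hz0comm hz081
  have hz27 : 27 * (F.f (z0 1)).2.z ≠ 0 := by
    intro h
    have h1 : (F.f (z0 1)) ^ 27 = 1 := by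
      refine Prod.ext ?_ ?_
      · change (F.f (z0 1)).1 ^ 27 = 1
        rw [hz1, one_pow]
      · obtain ⟨ha, hb, hc⟩ := P2.pow_of_j (F.f (z0 1)).2 hzj 27
        ext
        · change ((F.f (z0 1)).2 ^ 27).w = 0
          rw [ha, hzw, mul_zero]
        · change ((F.f (z0 1)).2 ^ 27).z = 0
          rw [hb]; exact_mod_cast h
        · exact hc
    rw [← F.f_pow, ← F.f_one] at h1
    have h2 := F.f.injective h1
    rw [z0_pow] at h2
    have h3 := congrArg (fun x : GG 1 => x.2.z) h2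
    change ((27 : ℕ) : ZMod 81) = 0 at h3
    exact absurd h3 (by decide)
  -- the image of `iota e0`
  obtain ⟨v', hv'⟩ : ∃ v' : Vec, F.f (iota e0) = iota v' := by
    apply exists_iota
    rw [← F.f_pow, iota_pow19, F.f_one]
  have hfix : ∀ b : BB, rho (sB b : GG 4) v' = v' := by
    intro b
    -- `sB b` commutes with the image of `z0`
    have h1 : Commute (sB b : GG 4) (F.f (z0 1)) := by
      change (sB b : GG 4) * F.f (z0 1) = F.f (z0 1) * sB b
      refine Prod.ext ?_ ?_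
      · change (sB b : GG 4).1 * (F.f (z0 1)).1 = (F.f (z0 1)).1 * (sB b : GG 4).1
        rw [hz1, mul_one, one_mul]
      · change 1 * (F.f (z0 1)).2 = (F.f (z0 1)).2 * 1
        rw [mul_one, one_mul]
    have h2 := F'.f_commute _ _ h1
    rw [hF] at h2
    have h3 : (F'.f (sB b)).2.j = 0 := by
      have h4 := congrArg (fun x : GG 1 => x.2.z) h2.eq
      change (F'.f (sB b)).2.z + (1 + c9 (1 * (F'.f (sB b)).2.j)) * 1 =
        1 + (1 + c9 (1 * 0)) * (F'.f (sB b)).2.z at h4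
      have h5 : ∀ (a : ZMod 81) (n : ZMod 9),
          a + (1 + c9 (1 * n)) * 1 = 1 + (1 + c9 (1 * 0)) * a → n = 0 := by
        intro a n hn
        have h6 : c9 n = 0 := by
          rw [one_mul, mul_zero, c9_zero] at hn
          linear_combination hn
        have h7 : ∀ n : ZMod 9, c9 n = 0 → n = 0 := by decide
        exact h7 n h6
      exact h5 _ _ h4
    have h4 : Commute (F'.f (sB b)) (iota e0) := by
      change F'.f (sB b) * iota e0 = iota e0 * F'.f (sB b)
      rw [conj_iota]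
      congr 2
      refine Prod.ext ?_ ?_
      · funext i
        rw [rho_fst]
        change e4 _ * 0 = 0
        rw [mul_zero]
      · rw [rho_snd, h3, e4_zero, one_mul]
    have h5 := F.f_commute _ _ h4
    rw [hF', hv'] at h5
    have h6 := h5.eq
    rw [conj_iota] at h6
    exact iota_inj (mul_right_cancel h6)
  have hv1 : v'.1 = 0 := by
    have ha := hfix ⟨fun t => if t = 0 then 1 else if t = 1 then -1 else 0, 0, by decide⟩
    have hb := hfix ⟨fun t => if t = 0 then 0 else if t = 1 then -1 else 1, 0, by decide⟩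
    have hcc : ∀ z : ZMod 19, (e4 1 * z = z ∨ e4 (-1) * z = z) → z = 0 := by decide
    have ha0 := congrFun (congrArg Prod.fst ha) 0
    have ha1 := congrFun (congrArg Prod.fst ha) 1
    have hb2 := congrFun (congrArg Prod.fst hb) 2
    rw [rho_fst] at ha0 ha1 hb2
    funext i
    have hi : i = 0 ∨ i = 1 ∨ i = 2 := by revert i; decide
    rcases hi with rfl | rfl | rfl
    · exact hcc _ (Or.inl ha0)
    · exact hcc _ (Or.inr ha1)
    · exact hcc _ (Or.inl hb2)
  have hv2 : v'.2 ≠ 0 := by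
    intro h0
    have h1 : v' = 0 := Prod.ext hv1 h0
    rw [h1, iota_zero, ← F.f_one] at hv'
    have h2 := F.f.injective hv'
    rw [← iota_zero] at h2
    have h3 := congrArg Prod.snd (iota_inj h2)
    exact one_ne_zero (α := ZMod 19) h3
  -- the `j`-coordinate of the image of `b0`
  have hbj : (F.f (b0 1)).2.j = (e : ZMod 9) := by
    have h1 := hconj (b0 1) e0
    rw [aeval_b0, he, iota_smul, F.f_pow, hv', ← iota_smul] at h1
    have h2 : F.f (b0 1) * iota v' = iota ((4 : ZMod 19) ^ e • v') * F.f (b0 1) :=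
      mul_inv_eq_iff_eq_mul.mp h1
    rw [conj_iota] at h2
    have h3 := congrArg Prod.snd (iota_inj (mul_right_cancel h2))
    rw [rho_snd] at h3
    have h4 : e4 (F.f (b0 1)).2.j = 4 ^ e := mul_right_cancel₀ hv2 h3
    have h5 : ∀ e : ℕ, e < 9 → (4 : ZMod 19) ^ e = e4 (e : ZMod 9) := by decide
    rw [h5 e he9] at h4
    exact e4_inj _ _ h4
  -- the commutator of `b0` and `z0`
  have hcz : (z0 1) ^ 9 = b0 1 * z0 1 * (b0 1)⁻¹ * (z0 1)⁻¹ := by
    rw [z0_pow]
    refine Prod.ext ?_ ?_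
    · change (1 : P1) = 1 * 1 * 1⁻¹ * 1⁻¹
      simp
    · ext
      · decide
      · decide
      · decide
  have hc1 : Commute (b0 1) ((z0 1) ^ 9) := by
    change b0 1 * (z0 1) ^ 9 = (z0 1) ^ 9 * b0 1
    rw [z0_pow]
    refine Prod.ext ?_ ?_
    · change (1 : P1) * 1 = 1 * 1
      rfl
    · ext
      · decide
      · decide
      · decide
  have hc2 : Commute (z0 1) ((z0 1) ^ 9) := (Commute.refl _).pow_right 9
  have hz0pow81 : (z0 1) ^ 81 = 1 := by
    rw [z0_pow]
    refine Prod.ext rfl ?_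
    ext
    · rfl
    · change ((81 : ℕ) : ZMod 81) = 0
      decide
    · rfl
  have hw1 : FreeGroup.lift ![b0 1, z0 1] F.w = b0 1 * z0 1 * ((z0 1) ^ 9) ^ m := by
    rw [hnf (GG 1) (b0 1) (z0 1) _ hcz hc1 hc2,
      zpow_eq_self_of_dvd (b0 1) 9 b0_pow9 i hi9,
      zpow_eq_self_of_dvd (z0 1) 81 hz0pow81 j (by exact_mod_cast hj81)]
  have hcz' : ((z0 1) ^ 9)⁻¹ = z0 1 * b0 1 * (z0 1)⁻¹ * (b0 1)⁻¹ := by
    rw [hcz]; group
  have hw2 : FreeGroup.lift ![z0 1, b0 1] F.w = z0 1 * b0 1 * (((z0 1) ^ 9)⁻¹) ^ m := by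
    rw [hnf (GG 1) (z0 1) (b0 1) _ hcz' hc2.inv_right hc1.inv_right,
      zpow_eq_self_of_dvd (b0 1) 9 b0_pow9 j hj9,
      zpow_eq_self_of_dvd (z0 1) 81 hz0pow81 i (by exact_mod_cast hi81)]
  have hC1 : Commute (b0 1 * z0 1) ((z0 1) ^ 9) := hc1.mul_left hc2
  have hC2 : Commute (z0 1 * b0 1) ((z0 1) ^ 9) := hc2.mul_left hc1
  have hf1 : F.f (b0 1) * F.f (z0 1) = F.f (b0 1 * z0 1) * ((F.f (z0 1)) ^ 9) ^ m := by
    rw [F.mul_eq, hw1, F.f_mul _ _ (hC1.zpow_right m), F.f_zpow, F.f_pow]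
  have hf2 : F.f (z0 1) * F.f (b0 1) = F.f (z0 1 * b0 1) * ((F.f (z0 1)) ^ 9) ^ (-m) := by
    rw [F.mul_eq, hw2, F.f_mul _ _ (hC2.inv_right.zpow_right m), F.f_zpow, F.f_inv, F.f_pow,
      inv_zpow, zpow_neg]
  have hf3 : F.f (b0 1 * z0 1) = F.f (z0 1 * b0 1) * (F.f (z0 1)) ^ 9 := by
    have h1 : b0 1 * z0 1 = (z0 1 * b0 1) * (z0 1) ^ 9 := by
      rw [hC2.eq, hcz]; group
    rw [h1, F.f_mul _ _ hC2, F.f_pow]
  -- compare in the second group
  have hmain : c9 (4 * (e : ZMod 9)) * (F.f (z0 1)).2.z =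
      c9 ((1 + 2 * m : ℤ) : ZMod 9) * (F.f (z0 1)).2.z := by
    have h1 : F.f (b0 1) * F.f (z0 1) =
        (F.f (z0 1) * F.f (b0 1)) * ((F.f (z0 1)) ^ 9) ^ (1 + 2 * m) := by
      rw [hf1, hf2, hf3]
      group
    rw [← zpow_natCast, ← zpow_mul] at h1
    obtain ⟨hq1, hq2⟩ := P2.zpow_of_j (F.f (z0 1)).2 hzj (((9 : ℕ) : ℤ) * (1 + 2 * m))
    have h2 := congrArg (fun x : GG 4 => x.2.z) h1
    have h3 : (F.f (b0 1)).2.z + (1 + c9 (4 * (F.f (b0 1)).2.j)) * (F.f (z0 1)).2.z =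
        ((F.f (z0 1)).2.z + (1 + c9 (4 * (F.f (z0 1)).2.j)) * (F.f (b0 1)).2.z) +
        (1 + c9 (4 * ((F.f (z0 1)).2.j + (F.f (b0 1)).2.j))) *
          ((F.f (z0 1)).2 ^ (((9 : ℕ) : ℤ) * (1 + 2 * m))).z := h2
    rw [hq1, hzj, zero_add, mul_zero, c9_zero, hbj] at h3
    rw [c9_intCast]
    have h9 := nine_mul_c9 (4 * (e : ZMod 9))
    push_cast at h3 ⊢
    linear_combination h3 + ((1 + 2 * (m : ZMod 81)) * (F.f (z0 1)).2.z) * h9
  have h6 : (4 * (e : ZMod 9) - ((1 + 2 * m : ℤ) : ZMod 9)) = 0 := by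
    apply c9_kernel _ (F.f (z0 1)).2.z _ hz27
    rw [sub_eq_add_neg, c9_add, c9_neg]
    linear_combination hmain
  apply he3
  apply final_arith e he9 (m : ZMod 9) hE
  push_cast at h6
  linear_combination h6

end Pool.Agent.Work.MP_d2f6cf_al
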