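import Mathlib

set_option autoImplicit false

namespace Pool.Agent.Work.MP_d2f6cf_al

/-- The character `j ↦ 4 ^ j` of `ZMod 9` with values in `ZMod 19` (4 has order 9 modulo 19). -/
def e4 (j : ZMod 9) : ZMod 19 := 4 ^ j.val

theorem e4_zero : e4 0 = 1 := by decide

theorem e4_add (a b : ZMod 9) : e4 (a + b) = e4 a * e4 b := by
  revert a b; decide

theorem e4_ne_zero (a : ZMod 9) : e4 a ≠ 0 := by
  revert a; decide

theorem e4_inj : ∀ a b : ZMod 9, e4 a = e4 b → a = b := by decide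

/-- The map `a ↦ 9 a` from `ZMod 9` to `ZMod 81`. -/
def c9 (a : ZMod 9) : ZMod 81 := 9 * (a.val : ZMod 81)

theorem c9_zero : c9 0 = 0 := by decide

theorem c9_add (a b : ZMod 9) : c9 (a + b) = c9 a + c9 b := by
  revert a b; decide

theorem c9_mul_c9 (a b : ZMod 9) : c9 a * c9 b = 0 := by
  revert a b; decide

theorem nine_mul_c9 (a : ZMod 9) : 9 * c9 a = 0 := by
  revert a; decide

theorem c9_neg (a : ZMod 9) : c9 (-a) = - c9 a := by
  revert a; decide

theorem c9_natmul (n : ℕ) (a : ZMod 9) : c9 ((n : ZMod 9) * a) = (n : ZMod 81) * c9 a := by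
  induction n with
  | zero => simp [c9_zero]
  | succ n ih => push_cast; rw [add_mul, c9_add, ih]; ring_nf

/-- `P1 = F_19^3 ⋊ (N0 ⋊ C_3)`. -/
@[ext]
structure P1 where
  v : ZMod 3 → ZMod 19
  n : ZMod 3 → ZMod 9
  t : ZMod 3
  h : n 0 + n 1 + n 2 = 0

/-- `B = N0 ⋊ C_3`. -/
@[ext]
structure BB where
  n : ZMod 3 → ZMod 9
  t : ZMod 3
  h : n 0 + n 1 + n 2 = 0

/-- `P2 k = (F_19 × Z/81) ⋊ C_9`. -/
@[ext]
structure P2 (k : ZMod 9) where
  w : ZMod 19
  z : ZMod 81
  j : ZMod 9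

theorem sum_shift (n : ZMod 3 → ZMod 9) (t : ZMod 3) :
    n (0 - t) + n (1 - t) + n (2 - t) = n 0 + n 1 + n 2 := by
  have h : t = 0 ∨ t = 1 ∨ t = 2 := by revert t; decide
  have h1 : (0 : ZMod 3) - 1 = 2 := by decide
  have h2 : (1 : ZMod 3) - 1 = 0 := by decide
  have h3 : (2 : ZMod 3) - 1 = 1 := by decide
  have h4 : (0 : ZMod 3) - 2 = 1 := by decide
  have h5 : (1 : ZMod 3) - 2 = 2 := by decide
  have h6 : (2 : ZMod 3) - 2 = 0 := by decide
  rcases h with rfl | rfl | rfl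
  · simp only [sub_zero]
  · rw [h1, h2, h3]; ring
  · rw [h4, h5, h6]; ring

namespace BB

instance : Mul BB := ⟨fun x y =>
  ⟨fun i => x.n i + y.n (i - x.t), x.t + y.t, by
    have h1 := x.h
    have h2 := y.h
    have h3 := sum_shift y.n x.t
    linear_combination h1 + h3 + h2⟩⟩

instance : One BB := ⟨⟨fun _ => 0, 0, by simp⟩⟩

instance : Inv BB := ⟨fun x =>
  ⟨fun i => - x.n (i + x.t), -x.t, by
    have h1 := x.h
    have h3 := sum_shift x.n (-x.t)
    simp only [sub_neg_eq_add] at h3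
    linear_combination - h3 - h1⟩⟩

@[simp] theorem mul_n (x y : BB) (i : ZMod 3) : (x * y).n i = x.n i + y.n (i - x.t) := rfl
@[simp] theorem mul_t (x y : BB) : (x * y).t = x.t + y.t := rfl
@[simp] theorem one_n (i : ZMod 3) : (1 : BB).n i = 0 := rfl
@[simp] theorem one_t : (1 : BB).t = 0 := rfl
@[simp] theorem inv_n (x : BB) (i : ZMod 3) : (x⁻¹).n i = - x.n (i + x.t) := rfl
@[simp] theorem inv_t (x : BB) : (x⁻¹).t = - x.t := rfl

instance : Group BB := Group.ofLeftAxioms
  (by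
    intro x y z
    ext i
    · simp only [mul_n, mul_t, add_assoc, sub_sub]
    · simp only [mul_t, add_assoc])
  (by
    intro x
    ext i
    · simp
    · simp)
  (by
    intro x
    ext i
    · simp
    · simp)

end BB

namespace P1

instance : Mul P1 := ⟨fun x y =>
  ⟨fun i => x.v i + e4 (x.n i) * y.v (i - x.t),
   fun i => x.n i + y.n (i - x.t), x.t + y.t, by
    have h1 := x.h
    have h2 := y.h
    have h3 := sum_shift y.n x.t
    linear_combination h1 + h3 + h2⟩⟩

instance : One P1 := ⟨⟨fun _ => 0, fun _ => 0, 0, by simp⟩⟩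

instance : Inv P1 := ⟨fun x =>
  ⟨fun i => - (e4 (- x.n (i + x.t)) * x.v (i + x.t)),
   fun i => - x.n (i + x.t), -x.t, by
    have h1 := x.h
    have h3 := sum_shift x.n (-x.t)
    simp only [sub_neg_eq_add] at h3
    linear_combination - h3 - h1⟩⟩

@[simp] theorem mul_v (x y : P1) (i : ZMod 3) :
    (x * y).v i = x.v i + e4 (x.n i) * y.v (i - x.t) := rfl
@[simp] theorem mul_n (x y : P1) (i : ZMod 3) : (x * y).n i = x.n i + y.n (i - x.t) := rfl
@[simp] theorem mul_t (x y : P1) : (x * y).t = x.t + y.t := rfl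
@[simp] theorem one_v (i : ZMod 3) : (1 : P1).v i = 0 := rfl
@[simp] theorem one_n (i : ZMod 3) : (1 : P1).n i = 0 := rfl
@[simp] theorem one_t : (1 : P1).t = 0 := rfl
@[simp] theorem inv_v (x : P1) (i : ZMod 3) :
    (x⁻¹).v i = - (e4 (- x.n (i + x.t)) * x.v (i + x.t)) := rfl
@[simp] theorem inv_n (x : P1) (i : ZMod 3) : (x⁻¹).n i = - x.n (i + x.t) := rfl
@[simp] theorem inv_t (x : P1) : (x⁻¹).t = - x.t := rfl

instance : Group P1 := Group.ofLeftAxioms
  (by
    intro x y z
    ext i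
    · simp only [mul_v, mul_n, mul_t, e4_add, sub_sub]; ring
    · simp only [mul_n, mul_t, add_assoc, sub_sub]
    · simp only [mul_t, add_assoc])
  (by
    intro x
    ext i
    · simp [e4_zero]
    · simp
    · simp)
  (by
    intro x
    ext i
    · simp
    · simp
    · simp)

/-- The projection of `P1` onto `BB`. -/
def toBB : P1 →* BB where
  toFun x := ⟨x.n, x.t, x.h⟩
  map_one' := rfl
  map_mul' _ _ := rfl

/-- The section of the projection. -/
def ofBB : BB →* P1 where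
  toFun x := ⟨fun _ => 0, x.n, x.t, x.h⟩
  map_one' := rfl
  map_mul' x y := by
    ext i
    · simp
    · rfl
    · rfl

end P1

namespace P2

variable {k : ZMod 9}

instance : Mul (P2 k) := ⟨fun x y =>
  ⟨x.w + e4 x.j * y.w, x.z + (1 + c9 (k * x.j)) * y.z, x.j + y.j⟩⟩

instance : One (P2 k) := ⟨⟨0, 0, 0⟩⟩

instance : Inv (P2 k) := ⟨fun x =>
  ⟨- (e4 (-x.j) * x.w), - ((1 - c9 (k * x.j)) * x.z), -x.j⟩⟩

@[simp] theorem mul_w (x y : P2 k) : (x * y).w = x.w + e4 x.j * y.w := rfl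
@[simp] theorem mul_z (x y : P2 k) : (x * y).z = x.z + (1 + c9 (k * x.j)) * y.z := rfl
@[simp] theorem mul_j (x y : P2 k) : (x * y).j = x.j + y.j := rfl
@[simp] theorem one_w : (1 : P2 k).w = 0 := rfl
@[simp] theorem one_z : (1 : P2 k).z = 0 := rfl
@[simp] theorem one_j : (1 : P2 k).j = 0 := rfl
@[simp] theorem inv_w (x : P2 k) : (x⁻¹).w = - (e4 (-x.j) * x.w) := rfl
@[simp] theorem inv_z (x : P2 k) : (x⁻¹).z = - ((1 - c9 (k * x.j)) * x.z) := rfl
@[simp] theorem inv_j (x : P2 k) : (x⁻¹).j = - x.j := rfl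

instance : Group (P2 k) := Group.ofLeftAxioms
  (by
    intro x y z
    ext
    · simp only [mul_w, mul_j, e4_add]; ring
    · simp only [mul_z, mul_j, mul_add, c9_add]
      linear_combination (- z.z) * c9_mul_c9 (k * x.j) (k * y.j)
    · simp only [mul_j, add_assoc])
  (by
    intro x
    ext
    · simp [e4_zero]
    · simp [c9_zero]
    · simp)
  (by
    intro x
    ext
    · simp
    · simp only [mul_z, inv_z, inv_j, one_z, mul_neg, c9_neg]; ring
    · simp)

end P2

/-- The groups of the counterexample. -/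
abbrev GG (k : ZMod 9) : Type := P1 × P2 k

instance : Finite P1 :=
  Finite.of_injective (fun x : P1 => (x.v, x.n, x.t)) (by
    intro x y h
    simp only [Prod.mk.injEq] at h
    ext i
    · rw [h.1]
    · rw [h.2.1]
    · rw [h.2.2])

instance (k : ZMod 9) : Finite (P2 k) :=
  Finite.of_injective (fun x : P2 k => (x.w, x.z, x.j)) (by
    intro x y h
    simp only [Prod.mk.injEq] at h
    ext
    · rw [h.1]
    · rw [h.2.1]
    · rw [h.2.2])

end Pool.Agent.Work.MP_d2f6cf_al
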