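import Pool.Agent.Work.MP_d2f6cf_al.Local

set_option autoImplicit false

namespace Pool.Agent.Work.MP_d2f6cf_al

/-- A bijection which is locally given by words induces an isomorphism of subgroup lattices. -/
theorem subgroup_orderIso {A B : Type} [Group A] [Group B] (F : A ≃ B)
    (h0 : F 1 = 1) (hinv : ∀ x, F x⁻¹ = (F x)⁻¹)
    (h1 : ∀ S : Subgroup A, ∀ x ∈ S, ∀ y ∈ S, F.symm (F x * F y) ∈ S)
    (h2 : ∀ S : Subgroup B, ∀ x ∈ S, ∀ y ∈ S, F (F.symm x * F.symm y) ∈ S) :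
    Nonempty (Subgroup A ≃o Subgroup B) := by
  have hinv' : ∀ y, F.symm y⁻¹ = (F.symm y)⁻¹ := by
    intro y
    rw [Equiv.symm_apply_eq, hinv, Equiv.apply_symm_apply]
  refine ⟨{
    toFun := fun S =>
      { carrier := {b | F.symm b ∈ S}
        mul_mem' := ?_
        one_mem' := ?_
        inv_mem' := ?_ }
    invFun := fun T =>
      { carrier := {a | F a ∈ T}
        mul_mem' := ?_
        one_mem' := ?_
        inv_mem' := ?_ }
    left_inv := ?_
    right_inv := ?_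
    map_rel_iff' := ?_ }⟩
  · intro a b ha hb
    have := h1 S _ ha _ hb
    simpa using this
  · change F.symm 1 ∈ S
    rw [← h0, Equiv.symm_apply_apply]; exact S.one_mem
  · intro a ha
    change F.symm a⁻¹ ∈ S
    rw [hinv']; exact S.inv_mem ha
  · intro a b ha hb
    have := h2 T _ ha _ hb
    simpa using this
  · change F 1 ∈ T
    rw [h0]; exact T.one_mem
  · intro a ha
    change F a⁻¹ ∈ T
    rw [hinv]; exact T.inv_mem ha
  · intro S
    ext a
    change F.symm (F a) ∈ S ↔ a ∈ S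
    rw [Equiv.symm_apply_apply]
  · intro T
    ext a
    change F (F.symm a) ∈ T ↔ a ∈ T
    rw [Equiv.apply_symm_apply]
  · intro S S'
    constructor
    · intro h a ha
      have : F a ∈ ({b | F.symm b ∈ S'} : Set B) := h (by
        change F.symm (F a) ∈ S
        rw [Equiv.symm_apply_apply]; exact ha)
      have h' : F.symm (F a) ∈ S' := this
      rwa [Equiv.symm_apply_apply] at h'
    · intro h b hb
      exact h hb

/-- The twisting map. -/
def tw (k l g : ZMod 9) (x : GG k) : GG l :=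
  (x.1, ⟨x.2.w, (1 + c9 (g * x.2.j)) * x.2.z, x.2.j⟩)

theorem tw_tw (k l g : ZMod 9) (x : GG k) : tw l k (-g) (tw k l g x) = x := by
  refine Prod.ext rfl ?_
  ext
  · rfl
  · change (1 + c9 (-g * x.2.j)) * ((1 + c9 (g * x.2.j)) * x.2.z) = x.2.z
    rw [neg_mul, c9_neg]
    linear_combination (- x.2.z) * c9_mul_c9 (g * x.2.j) (g * x.2.j)
  · rfl

/-- The twisting bijection. -/
def twE (k l g : ZMod 9) : GG k ≃ GG l where
  toFun := tw k l g
  invFun := tw l k (-g)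
  left_inv := tw_tw k l g
  right_inv := by
    intro x
    have := tw_tw l k (-g) x
    rwa [neg_neg] at this

theorem tw_one (k l g : ZMod 9) : tw k l g 1 = 1 := by
  refine Prod.ext rfl ?_
  ext
  · rfl
  · change (1 + c9 (g * 0)) * (0 : ZMod 81) = 0
    rw [mul_zero]
  · rfl

theorem tw_inv (k l g : ZMod 9) (h : l = k + 2 * g) (x : GG k) :
    tw k l g x⁻¹ = (tw k l g x)⁻¹ := by
  refine Prod.ext rfl ?_
  ext
  · rfl
  · change (1 + c9 (g * (- x.2.j))) * (- ((1 - c9 (k * x.2.j)) * x.2.z)) =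
      - ((1 - c9 (l * x.2.j)) * ((1 + c9 (g * x.2.j)) * x.2.z))
    have h2 : c9 (l * x.2.j) = c9 (k * x.2.j) + c9 (g * x.2.j) + c9 (g * x.2.j) := by
      rw [← c9_add, ← c9_add]; congr 1; rw [h]; ring
    rw [mul_neg g, c9_neg, h2]
    linear_combination (-2 * x.2.z) * c9_mul_c9 (k * x.2.j) (g * x.2.j) -
      (2 * x.2.z) * c9_mul_c9 (g * x.2.j) (g * x.2.j)
  · rfl

/-- The condition under which the word works in one coordinate. -/
def good (x y u : ZMod 3) : Prop := u ≠ 0 ∨ (x = 0 ∧ y = 0)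

instance (x y u : ZMod 3) : Decidable (good x y u) := by unfold good; infer_instance

theorem good_choice : ∀ a1 a2 a3 b1 b2 b3 : ZMod 3,
    (good a1 b1 a1 ∧ good a2 b2 a2 ∧ good a3 b3 a3) ∨
    (good a1 b1 b1 ∧ good a2 b2 b2 ∧ good a3 b3 b3) ∨
    (good a1 b1 (a1 + b1) ∧ good a2 b2 (a2 + b2) ∧ good a3 b3 (a3 + b3)) ∨
    (good a1 b1 (a1 - b1) ∧ good a2 b2 (a2 - b2) ∧ good a3 b3 (a3 - b3)) := by
  decide

/-- The word. -/
def wrd {A : Type} [Group A] (r : ℕ) (x y u : A) : A :=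
  x * y * ((x * y * x⁻¹ * y⁻¹ * u) ^ 3 * (u ^ 3)⁻¹) ^ (19 * r)

theorem tw_mul (k l g : ZMod 9) (r : ℕ) (hg : g = ((3 * r : ℕ) : ZMod 9) * k)
    (hl : l = ((1 + 6 * r : ℕ) : ZMod 9) * k) (x y u : GG k) (hgood : good x.1.t y.1.t u.1.t) :
    tw k l g (wrd r x y u) = tw k l g x * tw k l g y := by
  have h1 := P1.key x.1 y.1 u.1 hgood
  obtain ⟨h2, h3, h4⟩ := P2.key x.2 y.2 u.2 r
  have e1 : (wrd r x y u).1 = x.1 * y.1 *
    ((x.1 * y.1 * x.1⁻¹ * y.1⁻¹ * u.1) ^ 3 * (u.1 ^ 3)⁻¹) ^ (19 * r) := rfl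
  have e2 : (wrd r x y u).2 = x.2 * y.2 *
    ((x.2 * y.2 * x.2⁻¹ * y.2⁻¹ * u.2) ^ 3 * (u.2 ^ 3)⁻¹) ^ (19 * r) := rfl
  rw [pow_mul, h1, one_pow, mul_one] at e1
  generalize ((x.2 * y.2 * x.2⁻¹ * y.2⁻¹ * u.2) ^ 3 * (u.2 ^ 3)⁻¹) ^ (19 * r) = v at *
  refine Prod.ext ?_ ?_
  · exact e1
  · ext
    · change (wrd r x y u).2.w = x.2.w + e4 x.2.j * y.2.w
      rw [e2, P2.mul_w, P2.mul_w, h2, mul_zero, add_zero]
    · change (1 + c9 (g * (wrd r x y u).2.j)) * (wrd r x y u).2.z =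
        (1 + c9 (g * x.2.j)) * x.2.z + (1 + c9 (l * x.2.j)) * ((1 + c9 (g * y.2.j)) * y.2.z)
      have ex : ∀ j, c9 (g * j) = 3 * r * c9 (k * j) := by
        intro j
        rw [hg, mul_assoc, c9_natmul]; push_cast; ring
      have el : ∀ j, c9 (l * j) = (1 + 6 * r) * c9 (k * j) := by
        intro j
        rw [hl, mul_assoc, c9_natmul]; push_cast; ring
      rw [e2, P2.mul_z, P2.mul_z, P2.mul_j, P2.mul_j, h3, h4, add_zero]
      simp only [mul_add, c9_add]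
      rw [ex, ex, el]
      have hxx := c9_mul_c9 (k * x.2.j) (k * x.2.j)
      have hxy := c9_mul_c9 (k * x.2.j) (k * y.2.j)
      have hyy := c9_mul_c9 (k * y.2.j) (k * y.2.j)
      generalize c9 (k * x.2.j) = a at *
      generalize c9 (k * y.2.j) = b at *
      linear_combination
        (-9 * x.2.z * b * r * r + 9 * y.2.z * a * r * r + 18 * y.2.z * b * r * r +
          6 * y.2.z * r + 9 * y.2.z * r * r) * hxx +
        (-18 * x.2.z * b * r * r - 3 * x.2.z * r - 9 * x.2.z * r * r + 9 * y.2.z * b * r * r +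
          3 * y.2.z * r - 9 * y.2.z * r * r) * hxy +
        (-9 * x.2.z * b * r * r - 3 * x.2.z * r - 9 * x.2.z * r * r) * hyy
    · change (wrd r x y u).2.j = x.2.j + y.2.j
      rw [e2, P2.mul_j, P2.mul_j, h4, add_zero]

/-- The threefold power of a group, as in the problem. -/
abbrev Cube (A : Type) : Type := A × A × A

/-- The twisting bijection on threefold powers. -/
def tw3 (k l g : ZMod 9) : Cube (GG k) ≃ Cube (GG l) :=
  (twE k l g).prodCongr ((twE k l g).prodCongr (twE k l g))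

theorem tw3_mul (k l g : ZMod 9) (r : ℕ) (hg : g = ((3 * r : ℕ) : ZMod 9) * k)
    (hl : l = ((1 + 6 * r : ℕ) : ZMod 9) * k) (x y u : Cube (GG k))
    (h1 : good x.1.1.t y.1.1.t u.1.1.t) (h2 : good x.2.1.1.t y.2.1.1.t u.2.1.1.t)
    (h3 : good x.2.2.1.t y.2.2.1.t u.2.2.1.t) :
    tw3 k l g (wrd r x y u) = tw3 k l g x * tw3 k l g y := by
  refine Prod.ext ?_ (Prod.ext ?_ ?_)
  · exact tw_mul k l g r hg hl x.1 y.1 u.1 h1
  · exact tw_mul k l g r hg hl x.2.1 y.2.1 u.2.1 h2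
  · exact tw_mul k l g r hg hl x.2.2 y.2.2 u.2.2 h3

theorem wrd_mem {A : Type} [Group A] (S : Subgroup A) (r : ℕ) {x y u : A}
    (hx : x ∈ S) (hy : y ∈ S) (hu : u ∈ S) : wrd r x y u ∈ S := by
  unfold wrd
  refine S.mul_mem (S.mul_mem hx hy) (S.pow_mem (S.mul_mem (S.pow_mem (S.mul_mem ?_ hu) 3)
    (S.inv_mem (S.pow_mem hu 3))) _)
  exact S.mul_mem (S.mul_mem (S.mul_mem hx hy) (S.inv_mem hx)) (S.inv_mem hy)

theorem tw3_closed (k l g : ZMod 9) (r : ℕ) (hg : g = ((3 * r : ℕ) : ZMod 9) * k)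
    (hl : l = ((1 + 6 * r : ℕ) : ZMod 9) * k) (S : Subgroup (Cube (GG k)))
    (x : Cube (GG k)) (hx : x ∈ S) (y : Cube (GG k)) (hy : y ∈ S) :
    (tw3 k l g).symm (tw3 k l g x * tw3 k l g y) ∈ S := by
  have key : ∀ u ∈ S, good x.1.1.t y.1.1.t u.1.1.t → good x.2.1.1.t y.2.1.1.t u.2.1.1.t →
      good x.2.2.1.t y.2.2.1.t u.2.2.1.t → (tw3 k l g).symm (tw3 k l g x * tw3 k l g y) ∈ S := by
    intro u hu h1 h2 h3
    rw [← tw3_mul k l g r hg hl x y u h1 h2 h3, Equiv.symm_apply_apply]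
    exact wrd_mem S r hx hy hu
  rcases good_choice x.1.1.t x.2.1.1.t x.2.2.1.t y.1.1.t y.2.1.1.t y.2.2.1.t with h | h | h | h
  · exact key x hx h.1 h.2.1 h.2.2
  · exact key y hy h.1 h.2.1 h.2.2
  · exact key (x * y) (S.mul_mem hx hy) h.1 h.2.1 h.2.2
  · refine key (x * y⁻¹) (S.mul_mem hx (S.inv_mem hy)) ?_ ?_ ?_
    · have := h.1; rwa [sub_eq_add_neg] at this
    · have := h.2.1; rwa [sub_eq_add_neg] at this
    · have := h.2.2; rwa [sub_eq_add_neg] at this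

/-- The subgroup lattices of the cubes of `GG 1` and `GG 4` are isomorphic. -/
theorem lattice_iso : Nonempty (Subgroup (Cube (GG 1)) ≃o Subgroup (Cube (GG 4))) := by
  refine subgroup_orderIso (tw3 1 4 6) ?_ ?_ ?_ ?_
  · refine Prod.ext ?_ (Prod.ext ?_ ?_) <;> exact tw_one 1 4 6
  · intro x
    have h : (4 : ZMod 9) = 1 + 2 * 6 := by decide
    refine Prod.ext ?_ (Prod.ext ?_ ?_) <;> exact tw_inv 1 4 6 h _
  · intro S x hx y hy
    exact tw3_closed 1 4 6 2 (by decide) (by decide) S x hx y hy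
  · intro S x hx y hy
    have h1 := tw3_closed 4 1 (-6) 1 (by decide) (by decide) S x hx y hy
    have h2 : (-(-6) : ZMod 9) = 6 := by decide
    have h3 : (tw3 4 1 (-6)).symm = tw3 1 4 6 := by
      apply Equiv.ext
      intro z
      change (tw 1 4 (-(-6)) z.1, tw 1 4 (-(-6)) z.2.1, tw 1 4 (-(-6)) z.2.2) =
        (tw 1 4 6 z.1, tw 1 4 6 z.2.1, tw 1 4 6 z.2.2)
      rw [h2]
    rw [h3] at h1
    exact h1

end Pool.Agent.Work.MP_d2f6cf_al
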