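import Pool.Agent.Work.MP_d2f6cf_al.Defs

set_option autoImplicit false

namespace Pool.Agent.Work.MP_d2f6cf_al

/-- In `BB`, an element outside the abelian normal subgroup has order dividing `3`. -/
theorem BB.cube (b : BB) (hb : b.t ≠ 0) : b ^ 3 = 1 := by
  have h3 : ∀ t : ZMod 3, t + t + t = 0 := by decide
  ext i
  · rw [pow_succ, pow_two]
    simp only [BB.mul_n, BB.mul_t, BB.one_n]
    have ht : b.t = 1 ∨ b.t = 2 := by
      have : ∀ t : ZMod 3, t ≠ 0 → t = 1 ∨ t = 2 := by decide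
      exact this _ hb
    have hi : i = 0 ∨ i = 1 ∨ i = 2 := by
      have : ∀ t : ZMod 3, t = 0 ∨ t = 1 ∨ t = 2 := by decide
      exact this _
    have e1 : (0 : ZMod 3) - 1 = 2 := by decide
    have e2 : (1 : ZMod 3) - 1 = 0 := by decide
    have e3 : (2 : ZMod 3) - 1 = 1 := by decide
    have e4 : (0 : ZMod 3) - 2 = 1 := by decide
    have e5 : (1 : ZMod 3) - 2 = 2 := by decide
    have e6 : (2 : ZMod 3) - 2 = 0 := by decide
    have e7 : (1 : ZMod 3) + 1 = 2 := by decide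
    have e8 : (2 : ZMod 3) + 2 = 1 := by decide
    have hh := b.h
    rcases ht with ht | ht <;> rw [ht] <;> rcases hi with rfl | rfl | rfl <;>
      simp only [e1, e2, e3, e4, e5, e6, e7, e8] <;> linear_combination hh
  · rw [pow_succ, pow_two]
    simp only [BB.mul_t, BB.one_t]
    exact h3 _

theorem P1.pow_t (x : P1) (n : ℕ) : (x ^ n).t = n * x.t := by
  induction n with
  | zero => simp
  | succ n ih => rw [pow_succ, P1.mul_t, ih]; push_cast; ring

theorem P1.pow_of_toBB (x : P1) (hx : P1.toBB x = 1) (n : ℕ) :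
    (∀ i, (x ^ n).v i = n * x.v i) ∧ P1.toBB (x ^ n) = 1 := by
  have hn : ∀ y : P1, P1.toBB y = 1 → (∀ i, y.n i = 0) ∧ y.t = 0 := by
    intro y hy
    have h1 := congrArg BB.n hy
    have h2 := congrArg BB.t hy
    exact ⟨fun i => congrFun h1 i, h2⟩
  induction n with
  | zero => simp
  | succ n ih =>
    obtain ⟨ih1, ih2⟩ := ih
    obtain ⟨a1, a2⟩ := hn _ ih2
    refine ⟨?_, ?_⟩
    · intro i
      rw [pow_succ, P1.mul_v, ih1, a1, a2, e4_zero, sub_zero]
      push_cast; ring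
    · rw [pow_succ, map_mul, ih2, hx, one_mul]

theorem P1.pow19 (x : P1) (hx : P1.toBB x = 1) : x ^ 19 = 1 := by
  obtain ⟨h1, h2⟩ := P1.pow_of_toBB x hx 19
  have h3 : (19 : ZMod 19) = 0 := by decide
  ext i
  · rw [h1 i]
    have : ((19 : ℕ) : ZMod 19) = 0 := by decide
    rw [this, zero_mul]; rfl
  · exact congrFun (congrArg BB.n h2) i
  · exact congrArg BB.t h2

theorem P1.key (x y u : P1) (hg : u.t ≠ 0 ∨ (x.t = 0 ∧ y.t = 0)) :
    ((x * y * x⁻¹ * y⁻¹ * u) ^ 3 * (u ^ 3)⁻¹) ^ 19 = 1 := by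
  apply P1.pow19
  have hct : (P1.toBB (x * y * x⁻¹ * y⁻¹)).t = 0 := by
    simp only [map_mul, map_inv, BB.mul_t, BB.inv_t]
    ring
  rcases hg with hu | ⟨hx, hy⟩
  · have hu' : (P1.toBB u).t ≠ 0 := hu
    have h1 : (P1.toBB u) ^ 3 = 1 := BB.cube _ hu'
    have h2 : (P1.toBB (x * y * x⁻¹ * y⁻¹) * P1.toBB u) ^ 3 = 1 := by
      apply BB.cube
      rw [BB.mul_t, hct, zero_add]
      exact hu'
    rw [map_mul, map_inv, map_pow, map_pow, map_mul, h1, h2]
    simp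
  · have h1 : P1.toBB (x * y * x⁻¹ * y⁻¹) = 1 := by
      have hx' : (P1.toBB x).t = 0 := hx
      have hy' : (P1.toBB y).t = 0 := hy
      have hcomm : P1.toBB x * P1.toBB y = P1.toBB y * P1.toBB x := by
        ext i
        · simp only [BB.mul_n, hx', hy', sub_zero]; ring
        · simp only [BB.mul_t, hx', hy']
      simp only [map_mul, map_inv, hcomm]
      group
    rw [map_mul, map_inv, map_pow, map_pow, map_mul, h1]
    simp

namespace P2
variable {k : ZMod 9}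

theorem pow_of_j (x : P2 k) (hx : x.j = 0) (n : ℕ) :
    (x ^ n).w = n * x.w ∧ (x ^ n).z = n * x.z ∧ (x ^ n).j = 0 := by
  induction n with
  | zero => simp
  | succ n ih =>
    obtain ⟨h1, h2, h3⟩ := ih
    refine ⟨?_, ?_, ?_⟩
    · rw [pow_succ, mul_w, h1, h3, e4_zero]; push_cast; ring
    · rw [pow_succ, mul_z, h2, h3, mul_zero, c9_zero]; push_cast; ring
    · rw [pow_succ, mul_j, h3, hx, add_zero]

theorem comm_z (x y : P2 k) :
    (x * y * x⁻¹ * y⁻¹).z = c9 (k * x.j) * y.z - c9 (k * y.j) * x.z := by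
  simp only [mul_z, mul_j, inv_z, inv_j, mul_add, mul_neg, c9_add, c9_neg]
  have h1 := c9_mul_c9 (k * x.j) (k * x.j)
  have h2 := c9_mul_c9 (k * x.j) (k * y.j)
  have h3 := c9_mul_c9 (k * y.j) (k * y.j)
  linear_combination x.z * h1 + x.z * h2 + y.z * h3

/-- The local computation in `P2 k`. -/
theorem key (x y u : P2 k) (r : ℕ) :
    (((x * y * x⁻¹ * y⁻¹ * u) ^ 3 * (u ^ 3)⁻¹) ^ (19 * r)).w = 0 ∧
    (((x * y * x⁻¹ * y⁻¹ * u) ^ 3 * (u ^ 3)⁻¹) ^ (19 * r)).z =
      3 * r * (c9 (k * x.j) * y.z - c9 (k * y.j) * x.z) ∧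
    (((x * y * x⁻¹ * y⁻¹ * u) ^ 3 * (u ^ 3)⁻¹) ^ (19 * r)).j = 0 := by
  have hcj : (x * y * x⁻¹ * y⁻¹).j = 0 := by
    simp only [mul_j, inv_j]; ring
  have hcz := comm_z x y
  generalize x * y * x⁻¹ * y⁻¹ = c at hcj hcz
  have hv : ((c * u) ^ 3 * (u ^ 3)⁻¹).j = 0 := by
    rw [pow_succ, pow_succ, pow_one, pow_succ, pow_succ, pow_one]
    simp only [mul_j, inv_j, hcj]; ring
  have h9 : 9 * c.z = 0 := by
    rw [hcz]
    linear_combination y.z * nine_mul_c9 (k * x.j) - x.z * nine_mul_c9 (k * y.j)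
  have hcc : c9 (k * u.j) * c.z = 0 := by
    rw [hcz]
    linear_combination y.z * c9_mul_c9 (k * u.j) (k * x.j) - x.z * c9_mul_c9 (k * u.j) (k * y.j)
  have hvz : ((c * u) ^ 3 * (u ^ 3)⁻¹).z = 3 * c.z := by
    rw [pow_succ, pow_succ, pow_one, pow_succ, pow_succ, pow_one]
    simp only [mul_z, mul_j, inv_z, hcj, mul_add, mul_neg, c9_add, mul_zero,
      c9_zero, zero_add, add_zero]
    have h1 := c9_mul_c9 (k * u.j) (k * u.j)
    linear_combination (3 : ZMod 81) * hcc + (27 * u.z * (1 + c9 (k * u.j))) * h1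
  obtain ⟨h1, h2, h3⟩ := pow_of_j _ hv (19 * r)
  refine ⟨?_, ?_, h3⟩
  · rw [h1]
    have : ((19 * r : ℕ) : ZMod 19) = 0 := by
      push_cast
      have : (19 : ZMod 19) = 0 := by decide
      rw [this, zero_mul]
    rw [this, zero_mul]
  · rw [h2, hvz, ← hcz]
    push_cast
    linear_combination (6 * (r : ZMod 81)) * h9

end P2

end Pool.Agent.Work.MP_d2f6cf_al
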